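import Mathlib

/-!
Markov's inequality at the corner of a lens, by the maximum principle in a half disc.
-/

open Finset Polynomial

namespace Pool.Agent.Helper27.MB

/-- Growth of a polynomial outside a disc where it is bounded. -/
lemma poly_growth (Q : ℂ[X]) {n : ℕ} (hn : Q.natDegree ≤ n) (c : ℂ) {ε K : ℝ} (hε : 0 < ε)
    (h : ∀ z, ‖z - c‖ ≤ ε → ‖Q.eval z‖ ≤ K) {z : ℂ} (hz : ε ≤ ‖z - c‖) :
    ‖Q.eval z‖ ≤ K * (‖z - c‖ / ε) ^ n := by
  set P : ℂ[X] := Q.comp (X + C c) with hP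
  have hPev : ∀ u, P.eval u = Q.eval (u + c) := by intro u; rw [hP]; simp
  have hPdeg : P.natDegree ≤ n := by
    rw [hP]
    refine natDegree_comp_le.trans ?_
    rw [natDegree_X_add_C, mul_one]
    exact hn
  set G : ℂ → ℂ := fun u => ∑ j ∈ range (n + 1), P.coeff j * (ε : ℂ) ^ j * u ^ (n - j) with hG
  have hεC : (ε : ℂ) ≠ 0 := by exact_mod_cast hε.ne'
  have hGP : ∀ u, u ≠ 0 → G u = u ^ n * P.eval (ε / u) := by
    intro u hu
    rw [Polynomial.eval_eq_sum_range' (by omega : P.natDegree < n + 1), hG, mul_sum]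
    refine sum_congr rfl fun j hj => ?_
    have hj' : j ≤ n := by
      have := mem_range.1 hj
      omega
    have h1 : u ^ n = u ^ (n - j) * u ^ j := by rw [← pow_add]; congr 1; omega
    rw [h1, div_pow]
    field_simp
  have hGd : Differentiable ℂ G := by
    intro u
    rw [hG]
    fun_prop
  have hmax : ∀ u : ℂ, ‖u‖ ≤ 1 → ‖G u‖ ≤ K := by
    intro u hu
    have hb : Bornology.IsBounded (Metric.ball (0 : ℂ) 1) := Metric.isBounded_ball
    apply Complex.norm_le_of_forall_mem_frontier_norm_le hb hGd.diffContOnCl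
    · intro v hv
      rw [frontier_ball _ one_ne_zero] at hv
      have hv1 : ‖v‖ = 1 := by simpa using hv
      have hv0 : v ≠ 0 := by
        intro h0
        rw [h0, norm_zero] at hv1
        exact zero_ne_one hv1
      rw [hGP v hv0, norm_mul, norm_pow, hv1, one_pow, one_mul, hPev]
      apply h
      rw [add_sub_cancel_right, norm_div, hv1, div_one, Complex.norm_real,
        Real.norm_of_nonneg hε.le]
    · rw [closure_ball _ one_ne_zero]
      simpa using hu
  have ht0 : 0 < ‖z - c‖ := hε.trans_le hz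
  have htne : z - c ≠ 0 := norm_pos_iff.1 ht0
  set u : ℂ := ε / (z - c) with hu
  have hu0 : u ≠ 0 := div_ne_zero hεC htne
  have hun : ‖u‖ = ε / ‖z - c‖ := by
    rw [hu, norm_div, Complex.norm_real, Real.norm_of_nonneg hε.le]
  have hu1 : ‖u‖ ≤ 1 := by
    rw [hun]
    exact (div_le_one ht0).2 hz
  have h1 := hmax u hu1
  rw [hGP u hu0, norm_mul, norm_pow, hun, hPev] at h1
  have h2 : (ε : ℂ) / u + c = z := by
    rw [hu]
    field_simp
    ring
  rw [h2] at h1
  have h3 : (0 : ℝ) < (‖z - c‖ / ε) ^ n := by positivity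
  calc ‖Q.eval z‖ = ((ε / ‖z - c‖) ^ n * ‖Q.eval z‖) * (‖z - c‖ / ε) ^ n := by
        rw [mul_comm ((ε / ‖z - c‖) ^ n), mul_assoc, ← mul_pow]
        have : ε / ‖z - c‖ * (‖z - c‖ / ε) = 1 := by field_simp
        rw [this, one_pow, mul_one]
    _ ≤ K * (‖z - c‖ / ε) ^ n := mul_le_mul_of_nonneg_right h1 h3.le

/-- The lens condition in polar coordinates. -/
lemma lens_of_angle {τ R θ : ℝ} (hτ : 0 ≤ τ) (hR : 0 ≤ R) (h1 : Real.pi / 2 + Real.arctan τ ≤ |θ|)
    (h2 : |θ| ≤ Real.pi) : τ * |-(R * Real.sin θ)| ≤ -(R * Real.cos θ) := by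
  set a : ℝ := Real.arctan τ with ha
  have ha0 : 0 ≤ a := Real.arctan_nonneg.2 hτ
  have hca : 0 < Real.cos a := Real.cos_arctan_pos τ
  have hsa : Real.sin a = τ * Real.cos a := by
    have := Real.tan_arctan τ
    rw [← ha, Real.tan_eq_sin_div_cos] at this
    field_simp at this
    linarith
  have hpi := Real.pi_pos
  have hc : Real.cos θ ≤ - Real.sin a := by
    rw [← Real.cos_abs]
    have h3 : Real.cos |θ| ≤ Real.cos (Real.pi / 2 + a) :=
      Real.cos_le_cos_of_nonneg_of_le_pi (by linarith) h2 h1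
    have h4 : Real.cos (Real.pi / 2 + a) = - Real.sin a := by
      rw [add_comm, Real.cos_add_pi_div_two]
    rwa [h4] at h3
  have hs : |Real.sin θ| ≤ Real.cos a := by
    have h3 : |Real.sin θ| = Real.sin |θ| := by
      rcases le_total 0 θ with h | h
      · rw [abs_of_nonneg h] at h2 ⊢
        exact abs_of_nonneg (Real.sin_nonneg_of_nonneg_of_le_pi h h2)
      · rw [abs_of_nonpos h] at h2 ⊢
        rw [Real.sin_neg]
        have : 0 ≤ Real.sin (-θ) := Real.sin_nonneg_of_nonneg_of_le_pi (by linarith) h2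
        rw [Real.sin_neg] at this
        rw [abs_of_nonpos (by linarith)]
    rw [h3]
    have h4 : Real.sin |θ| = Real.cos (|θ| - Real.pi / 2) := by
      rw [Real.cos_sub_pi_div_two]
    rw [h4]
    exact Real.cos_le_cos_of_nonneg_of_le_pi ha0 (by linarith) (by linarith)
  rw [abs_neg, abs_mul, abs_of_nonneg hR]
  have h5 : τ * (R * |Real.sin θ|) ≤ R * (τ * Real.cos a) := by
    calc τ * (R * |Real.sin θ|) = (τ * R) * |Real.sin θ| := by ring
      _ ≤ (τ * R) * Real.cos a := mul_le_mul_of_nonneg_left hs (mul_nonneg hτ hR)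
      _ = _ := by ring
  rw [← hsa] at h5
  have h6 : R * Real.sin a ≤ R * (- Real.cos θ) := mul_le_mul_of_nonneg_left (by linarith) hR
  linarith

lemma cpow_re_im {ζ : ℂ} (hζ : ζ ≠ 0) (κ : ℝ) :
    (ζ ^ (κ : ℂ)).re = ‖ζ‖ ^ κ * Real.cos (κ * ζ.arg) ∧
    (ζ ^ (κ : ℂ)).im = ‖ζ‖ ^ κ * Real.sin (κ * ζ.arg) := by
  have h1 : ζ ^ (κ : ℂ) = Complex.exp (Complex.log ζ * κ) := Complex.cpow_def_of_ne_zero hζ _
  have h2 : (Complex.log ζ * (κ : ℂ)).re = Real.log ‖ζ‖ * κ := by
    rw [Complex.re_mul_ofReal, Complex.log_re]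
  have h3 : (Complex.log ζ * (κ : ℂ)).im = κ * ζ.arg := by
    rw [Complex.im_mul_ofReal, Complex.log_im, mul_comm]
  have h4 : Real.exp (Real.log ‖ζ‖ * κ) = ‖ζ‖ ^ κ := by
    rw [Real.rpow_def_of_pos (norm_pos_iff.2 hζ)]
  rw [h1, Complex.exp_re, Complex.exp_im, h2, h3, h4]
  exact ⟨rfl, rfl⟩

/-- Markov's inequality at the corner `1` of the lens `1/ρ = 1 + w`, `τ |Im w| ≤ Re w`. -/
theorem corner_markov {τ K : ℝ} (hτ : 0 ≤ τ) (Q : ℂ[X]) {n : ℕ} (hn1 : 1 ≤ n)
    (hn : Q.natDegree ≤ n)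
    (H : ∀ w : ℂ, τ * |w.im| ≤ w.re → ‖Q.eval (1 / (1 + w))‖ ≤ K) :
    ‖(derivative Q).eval 1‖ ≤
      6400 * (1 + τ) ^ 2 * (n : ℝ) ^ (1 + 2 / Real.pi * Real.arctan τ) * K := by
  have hpi := Real.pi_pos
  have hK : 0 ≤ K := (norm_nonneg _).trans (H 0 (by simp))
  set a : ℝ := Real.arctan τ with ha
  have ha0 : 0 ≤ a := Real.arctan_nonneg.2 hτ
  have ha1 : a < Real.pi / 2 := Real.arctan_lt_pi_div_two τ
  set κ : ℝ := 1 + 2 / Real.pi * a with hκ
  have hκπ : κ * (Real.pi / 2) = Real.pi / 2 + a := by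
    rw [hκ]; field_simp
  have hκ1 : 1 ≤ κ := by
    have : 0 ≤ 2 / Real.pi * a := by positivity
    rw [hκ]; linarith
  have hκ2 : κ ≤ 2 := by
    have : 2 / Real.pi * a ≤ 1 := by
      rw [div_mul_eq_mul_div, div_le_one hpi]
      linarith
    rw [hκ]; linarith
  have hκ0 : 0 < κ := by linarith
  -- the disc inside the lens
  set ε : ℝ := 1 / (8 * (1 + τ)) with hε
  have hτ1 : 0 < 1 + τ := by linarith
  have hε0 : 0 < ε := by positivity
  have hε8 : ε ≤ 1 / 8 := by
    rw [hε]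
    apply one_div_le_one_div_of_le (by norm_num)
    linarith
  have hdisc : ∀ z : ℂ, ‖z - 1 / 2‖ ≤ ε → ‖Q.eval z‖ ≤ K := by
    intro z hz
    have hzn : 3 / 8 ≤ ‖z‖ := by
      have h1 : ‖(1 / 2 : ℂ)‖ ≤ ‖z - 1 / 2‖ + ‖z‖ := by
        have : (1 / 2 : ℂ) = -(z - 1 / 2) + z := by ring
        calc ‖(1 / 2 : ℂ)‖ = ‖-(z - 1 / 2) + z‖ := by rw [← this]
          _ ≤ ‖-(z - 1 / 2)‖ + ‖z‖ := norm_add_le _ _
          _ = _ := by rw [norm_neg]
      have h2 : ‖(1 / 2 : ℂ)‖ = 1 / 2 := by norm_num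
      rw [h2] at h1
      linarith
    have hz0 : z ≠ 0 := by
      intro h; rw [h, norm_zero] at hzn; linarith
    set w : ℂ := 1 / z - 1 with hw
    have hzw : 1 / (1 + w) = z := by
      rw [hw]; field_simp; ring_nf
    have hw1 : ‖w - 1‖ ≤ 1 / (1 + τ) := by
      have h3 : w - 1 = -(2 * (z - 1 / 2)) / z := by
        rw [hw]; field_simp; ring
      rw [h3, norm_div, norm_neg, norm_mul]
      have h4 : ‖(2 : ℂ)‖ = 2 := by norm_num
      rw [h4, div_le_iff₀ (by linarith)]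
      have h5 : 2 * ‖z - 1 / 2‖ ≤ 2 * ε := by linarith
      have h6 : 2 * ε ≤ 1 / (1 + τ) * (3 / 8) := by
        have : ε = 1 / (1 + τ) * (1 / 8) := by rw [hε]; field_simp
        rw [this]
        have : 0 < 1 / (1 + τ) := by positivity
        linarith
      have h7 : 1 / (1 + τ) * (3 / 8) ≤ 1 / (1 + τ) * ‖z‖ :=
        mul_le_mul_of_nonneg_left hzn (by positivity)
      linarith
    rw [← hzw]
    apply H
    have h8 : |w.im| ≤ 1 / (1 + τ) := by
      have h9 := (Complex.abs_im_le_norm (w - 1)).trans hw1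
      simpa using h9
    have h10 : 1 - 1 / (1 + τ) ≤ w.re := by
      have h9 := (Complex.abs_re_le_norm (w - 1)).trans hw1
      rw [Complex.sub_re, Complex.one_re] at h9
      have := (abs_le.1 h9).1
      linarith
    have h11 : τ * |w.im| ≤ τ * (1 / (1 + τ)) := mul_le_mul_of_nonneg_left h8 hτ
    have h12 : τ * (1 / (1 + τ)) = 1 - 1 / (1 + τ) := by field_simp; ring
    linarith
  set A : ℝ := 20 * (1 + τ) with hA
  have hA1 : 1 ≤ A := by rw [hA]; linarith
  have hgrow : ∀ z : ℂ, ‖z‖ ≤ 2 → ‖Q.eval z‖ ≤ K * A ^ n := by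
    intro z hz
    have hAn : 1 ≤ A ^ n := one_le_pow₀ hA1
    rcases le_total ‖z - 1 / 2‖ ε with h | h
    · have := hdisc z h
      nlinarith
    · have h1 := poly_growth Q hn (1 / 2) hε0 hdisc h
      refine h1.trans (mul_le_mul_of_nonneg_left ?_ hK)
      apply pow_le_pow_left₀ (by positivity)
      rw [div_le_iff₀ hε0]
      have h2 : ‖z - 1 / 2‖ ≤ ‖z‖ + ‖(1 / 2 : ℂ)‖ := norm_sub_le _ _
      have h3 : ‖(1 / 2 : ℂ)‖ = 1 / 2 := by norm_num
      rw [h3] at h2
      have h4 : A * ε = 5 / 2 := by rw [hA, hε]; field_simp; norm_num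
      rw [h4]
      linarith
  -- the half disc
  set L : ℝ := n * Real.log A with hL
  have hL0 : 0 ≤ L := mul_nonneg (Nat.cast_nonneg n) (Real.log_nonneg hA1)
  have hAexp : A ^ n = Real.exp L := by
    rw [hL, ← Real.log_pow, Real.exp_log (by positivity)]
  set U : Set ℂ := {ζ : ℂ | 0 < ζ.re} ∩ Metric.ball 0 (1 / 2) with hU
  have hUo : IsOpen U := (isOpen_lt continuous_const Complex.continuous_re).inter Metric.isOpen_ball
  have hUb : Bornology.IsBounded U := Metric.isBounded_ball.subset Set.inter_subset_right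
  have hUcl : closure U ⊆ {ζ : ℂ | 0 ≤ ζ.re ∧ ‖ζ‖ ≤ 1 / 2} := by
    apply closure_minimal
    · intro ζ hζ
      exact ⟨le_of_lt hζ.1, by have := hζ.2; simpa using (le_of_lt (mem_ball_zero_iff.1 this))⟩
    · exact (isClosed_le continuous_const Complex.continuous_re).inter
        (isClosed_le continuous_norm continuous_const)
  have hsmall : ∀ ζ : ℂ, ‖ζ‖ ≤ 1 / 2 → ‖ζ ^ (κ : ℂ)‖ ≤ 1 / 2 := by
    intro ζ hζ
    rw [Complex.norm_cpow_real]
    calc ‖ζ‖ ^ κ ≤ (1 / 2 : ℝ) ^ κ := Real.rpow_le_rpow (norm_nonneg _) hζ hκ0.le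
      _ ≤ (1 / 2 : ℝ) ^ (1 : ℝ) :=
          Real.rpow_le_rpow_of_exponent_ge (by norm_num) (by norm_num) hκ1
      _ = 1 / 2 := Real.rpow_one _
  have hne : ∀ s : ℂ, ‖s‖ ≤ 1 / 2 → 1 - s ≠ 0 := by
    intro s hs h
    have : s = 1 := (sub_eq_zero.1 h).symm
    rw [this, norm_one] at hs
    norm_num at hs
  have hrho : ∀ s : ℂ, ‖s‖ ≤ 1 / 2 → ‖1 / (1 - s)‖ ≤ 2 := by
    intro s hs
    rw [norm_div, norm_one, div_le_iff₀ (norm_pos_iff.2 (hne s hs))]
    have : ‖(1 : ℂ)‖ - ‖s‖ ≤ ‖1 - s‖ := norm_sub_norm_le _ _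
    rw [norm_one] at this
    linarith
  set f0 : ℂ → ℂ := fun ζ => Q.eval (1 / (1 - ζ ^ (κ : ℂ))) with hf0
  set hh : ℂ → ℂ := fun ζ => 4 * ζ - 4 * ζ ^ 2 with hhh
  set f : ℂ → ℂ := fun ζ => f0 ζ * Complex.exp (-(L : ℂ) * hh ζ) with hf
  have hhre : ∀ ζ : ℂ, (hh ζ).re = 4 * ζ.re - 4 * (ζ.re ^ 2 - ζ.im ^ 2) := by
    intro ζ
    simp only [hhh, pow_two, Complex.sub_re, Complex.mul_re, Complex.mul_im]
    norm_num
  have hnormexp : ∀ ζ : ℂ, ‖Complex.exp (-(L : ℂ) * hh ζ)‖ = Real.exp (-L * (hh ζ).re) := by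
    intro ζ
    rw [Complex.norm_exp]
    congr 1
    have : (-(L : ℂ) * hh ζ) = ((-L : ℝ) : ℂ) * hh ζ := by push_cast; ring
    rw [this, Complex.re_ofReal_mul]
  have haxis : ∀ ζ : ℂ, ζ.re = 0 → ‖f0 ζ‖ ≤ K := by
    intro ζ hζ
    have h1 : f0 ζ = Q.eval (1 / (1 + -(ζ ^ (κ : ℂ)))) := by rw [hf0]; simp only [← sub_eq_add_neg]
    rw [h1]
    apply H
    rcases eq_or_ne ζ 0 with h0 | h0
    · rw [h0, Complex.zero_cpow (by exact_mod_cast hκ0.ne')]
      simp
    · obtain ⟨e1, e2⟩ := cpow_re_im h0 κ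
      rw [Complex.neg_im, Complex.neg_re, e1, e2]
      have him : ζ.im ≠ 0 := by
        intro h
        exact h0 (Complex.ext hζ h)
      have harg : |ζ.arg| = Real.pi / 2 := by
        rcases lt_or_gt_of_ne him with h | h
        · have : ζ = ((-ζ.im : ℝ) : ℂ) * (-Complex.I) := by
            apply Complex.ext
            · simp [hζ]
            · simp
          rw [this, Complex.arg_real_mul _ (by linarith), Complex.arg_neg_I, abs_neg,
            abs_of_pos (by positivity)]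
        · have : ζ = ((ζ.im : ℝ) : ℂ) * Complex.I := by
            apply Complex.ext
            · simp [hζ]
            · simp
          rw [this, Complex.arg_real_mul _ h, Complex.arg_I, abs_of_pos (by positivity)]
      have hang : |κ * ζ.arg| = Real.pi / 2 + a := by
        rw [abs_mul, abs_of_pos hκ0, harg, hκπ]
      exact lens_of_angle hτ (Real.rpow_nonneg (norm_nonneg _) _) (by rw [hang])
        (by rw [hang]; linarith)
  have hfr : ∀ ζ ∈ frontier U, ‖f ζ‖ ≤ K := by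
    intro ζ hζ
    have hcl := hUcl (frontier_subset_closure hζ)
    have hnot : ζ ∉ U := by
      intro hin
      have : ζ ∈ closure U \ interior U := hζ
      rw [hUo.interior_eq] at this
      exact this.2 hin
    have hx : 0 ≤ ζ.re := hcl.1
    have hz2 : ‖ζ‖ ≤ 1 / 2 := hcl.2
    rw [hf]
    simp only
    rw [norm_mul, hnormexp, hhre]
    rcases eq_or_lt_of_le hx with h0 | h0
    · -- on the axis
      have h1 := haxis ζ h0.symm
      have h2 : Real.exp (-L * (4 * ζ.re - 4 * (ζ.re ^ 2 - ζ.im ^ 2))) ≤ 1 := by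
        rw [Real.exp_le_one_iff, ← h0]
        have : 0 ≤ L * ζ.im ^ 2 := by positivity
        nlinarith
      calc ‖f0 ζ‖ * Real.exp (-L * (4 * ζ.re - 4 * (ζ.re ^ 2 - ζ.im ^ 2))) ≤ K * 1 :=
            mul_le_mul h1 h2 (Real.exp_pos _).le hK
        _ = K := mul_one K
    · -- on the arc
      have hz3 : ‖ζ‖ = 1 / 2 := by
        apply le_antisymm hz2
        by_contra hlt
        push Not at hlt
        exact hnot ⟨h0, by rw [mem_ball_zero_iff]; exact hlt⟩
      have h1 : ‖f0 ζ‖ ≤ K * A ^ n := by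
        rw [hf0]
        exact hgrow _ (hrho _ (hsmall ζ hz2))
      have h2 : ζ.re ^ 2 + ζ.im ^ 2 = 1 / 4 := by
        have h3 : ‖ζ‖ ^ 2 = ζ.re * ζ.re + ζ.im * ζ.im := by
          rw [← Complex.normSq_apply, Complex.normSq_eq_norm_sq]
        rw [hz3] at h3
        nlinarith
      have h4 : ζ.re ≤ 1 / 2 := by nlinarith [sq_nonneg ζ.im]
      have h5 : Real.exp (-L * (4 * ζ.re - 4 * (ζ.re ^ 2 - ζ.im ^ 2))) ≤ Real.exp (-L) := by
        apply Real.exp_le_exp.2
        have h6 : 1 ≤ 4 * ζ.re - 4 * (ζ.re ^ 2 - ζ.im ^ 2) := by nlinarith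
        nlinarith
      calc ‖f0 ζ‖ * Real.exp (-L * (4 * ζ.re - 4 * (ζ.re ^ 2 - ζ.im ^ 2)))
          ≤ (K * A ^ n) * Real.exp (-L) := mul_le_mul h1 h5 (Real.exp_pos _).le (by positivity)
        _ = K := by rw [hAexp, mul_assoc, ← Real.exp_add]; simp
  have hcont0 : ContinuousOn (fun ζ : ℂ => ζ ^ (κ : ℂ)) (closure U) := by
    intro ζ hζ
    have := (hUcl hζ).1
    exact (Complex.continuousAt_cpow_const_of_re_pos (Or.inl this)
      (by rw [Complex.ofReal_re]; exact hκ0)).continuousWithinAt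
  have hdcl : DiffContOnCl ℂ f U := by
    constructor
    · intro ζ hζ
      have h1 : ζ ∈ Complex.slitPlane := Or.inl hζ.1
      have h2 : DifferentiableAt ℂ (fun ζ : ℂ => ζ ^ (κ : ℂ)) ζ :=
        DifferentiableAt.cpow_const differentiableAt_id h1
      have hz2 : ‖ζ‖ ≤ 1 / 2 := (mem_ball_zero_iff.1 hζ.2).le
      have h3 : 1 - ζ ^ (κ : ℂ) ≠ 0 := hne _ (hsmall ζ hz2)
      have h4 : DifferentiableAt ℂ (fun ζ : ℂ => 1 / (1 - ζ ^ (κ : ℂ))) ζ :=
        (differentiableAt_const _).div ((differentiableAt_const _).sub h2) h3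
      have h5 : DifferentiableAt ℂ f0 ζ := by
        rw [hf0]
        exact (Q.differentiable _).comp ζ h4
      have h6 : DifferentiableAt ℂ (fun ζ : ℂ => Complex.exp (-(L : ℂ) * hh ζ)) ζ := by
        rw [hhh]
        fun_prop
      exact (h5.mul h6).differentiableWithinAt
    · have h4 : ContinuousOn (fun ζ : ℂ => 1 / (1 - ζ ^ (κ : ℂ))) (closure U) := by
        apply ContinuousOn.div continuousOn_const (continuousOn_const.sub hcont0)
        intro ζ hζ
        exact hne _ (hsmall ζ (hUcl hζ).2)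
      have h5 : ContinuousOn f0 (closure U) := by
        rw [hf0]
        exact Q.continuous.comp_continuousOn h4
      have h6 : ContinuousOn (fun ζ : ℂ => Complex.exp (-(L : ℂ) * hh ζ)) (closure U) := by
        rw [hhh]
        fun_prop
      exact h5.mul h6
  have hhalf : ∀ ζ : ℂ, 0 < ζ.re → ‖ζ‖ < 1 / 2 → ‖f0 ζ‖ ≤ K * Real.exp (L * (6 * ‖ζ‖)) := by
    intro ζ h1 h2
    have hin : ζ ∈ U := ⟨h1, by rw [mem_ball_zero_iff]; exact h2⟩
    have h3 := Complex.norm_le_of_forall_mem_frontier_norm_le hUb hdcl hfr (subset_closure hin)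
    rw [hf] at h3
    simp only at h3
    rw [norm_mul, hnormexp] at h3
    have h4 : (hh ζ).re ≤ 6 * ‖ζ‖ := by
      refine (Complex.re_le_norm _).trans ?_
      rw [hhh]
      simp only
      refine (norm_sub_le _ _).trans ?_
      rw [norm_mul, norm_mul, norm_pow]
      have h5 : ‖(4 : ℂ)‖ = 4 := by norm_num
      rw [h5]
      nlinarith [norm_nonneg ζ]
    have h5 : 0 < Real.exp (-L * (hh ζ).re) := Real.exp_pos _
    calc ‖f0 ζ‖ = (‖f0 ζ‖ * Real.exp (-L * (hh ζ).re)) * Real.exp (L * (hh ζ).re) := by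
          rw [mul_assoc, ← Real.exp_add]
          have : -L * (hh ζ).re + L * (hh ζ).re = 0 := by ring
          rw [this, Real.exp_zero, mul_one]
      _ ≤ K * Real.exp (L * (6 * ‖ζ‖)) := by
          apply mul_le_mul h3 _ (Real.exp_pos _).le hK
          exact Real.exp_le_exp.2 (mul_le_mul_of_nonneg_left h4 hL0)
  -- Cauchy
  have hnR : (1 : ℝ) ≤ n := by exact_mod_cast hn1
  set R : ℝ := (1 / (4 * n)) ^ κ with hR
  have hR0 : 0 < R := Real.rpow_pos_of_pos (by positivity) _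
  have h4n : (1 / (4 * (n : ℝ))) ≤ 1 / 4 := by
    apply one_div_le_one_div_of_le (by norm_num)
    linarith
  have hR1 : R ≤ 1 / 4 := by
    calc R ≤ (1 / (4 * (n : ℝ))) ^ (1 : ℝ) :=
          Real.rpow_le_rpow_of_exponent_ge (by positivity) (by linarith) hκ1
      _ = 1 / (4 * n) := Real.rpow_one _
      _ ≤ 1 / 4 := h4n
  set G : ℂ → ℂ := fun s => Q.eval (1 / (1 - s)) with hG
  have hGbd : ∀ s ∈ Metric.sphere (0 : ℂ) R, ‖G s‖ ≤ K * A ^ 2 := by
    intro s hs
    have hsR : ‖s‖ = R := by simpa using hs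
    have hs0 : s ≠ 0 := by
      rw [← norm_pos_iff, hsR]; exact hR0
    have hA2 : 1 ≤ A ^ 2 := one_le_pow₀ hA1
    rcases le_or_gt (Real.pi / 2 + a) |s.arg| with h | h
    · have h1 : G s = Q.eval (1 / (1 + -s)) := by rw [hG]; simp only [← sub_eq_add_neg]
      have h2 : ‖G s‖ ≤ K := by
        rw [h1]
        apply H
        have h3 := lens_of_angle hτ (norm_nonneg s) h (Complex.abs_arg_le_pi s)
        rw [Complex.norm_mul_sin_arg, Complex.norm_mul_cos_arg] at h3
        rw [Complex.neg_im, Complex.neg_re]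
        exact h3
      nlinarith
    · set ζ : ℂ := s ^ ((1 / κ : ℝ) : ℂ) with hζ
      obtain ⟨e1, e2⟩ := cpow_re_im hs0 (1 / κ)
      have hlt : |1 / κ * s.arg| < Real.pi / 2 := by
        rw [abs_mul, abs_of_pos (by positivity), one_div, inv_mul_lt_iff₀ hκ0, hκπ]
        exact h
      have hre : 0 < ζ.re := by
        rw [hζ, e1]
        apply mul_pos (Real.rpow_pos_of_pos (norm_pos_iff.2 hs0) _)
        exact Real.cos_pos_of_mem_Ioo ⟨by have := (abs_lt.1 hlt).1; linarith, (abs_lt.1 hlt).2⟩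
      have hnorm : ‖ζ‖ = 1 / (4 * n) := by
        rw [hζ, Complex.norm_cpow_real, hsR, hR, ← Real.rpow_mul (by positivity)]
        have : κ * (1 / κ) = 1 := by field_simp
        rw [this, Real.rpow_one]
      have hζκ : ζ ^ (κ : ℂ) = s := by
        have him : (Complex.log s * ((1 / κ : ℝ) : ℂ)).im = 1 / κ * s.arg := by
          rw [Complex.im_mul_ofReal, Complex.log_im, mul_comm]
        have h5 := abs_lt.1 hlt
        rw [hζ, ← Complex.cpow_mul _ (by rw [him]; linarith) (by rw [him]; linarith)]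
        have h6 : ((1 / κ : ℝ) : ℂ) * (κ : ℂ) = 1 := by
          rw [← Complex.ofReal_mul]
          have : 1 / κ * κ = 1 := by field_simp
          rw [this, Complex.ofReal_one]
        rw [h6, Complex.cpow_one]
      have h1 : G s = f0 ζ := by
        rw [hG, hf0]
        simp only
        rw [hζκ]
      have h2 := hhalf ζ hre (by rw [hnorm]; linarith)
      rw [h1]
      refine h2.trans (mul_le_mul_of_nonneg_left ?_ hK)
      rw [hnorm, hL]
      have h3 : (n : ℝ) * Real.log A * (6 * (1 / (4 * n))) = 3 / 2 * Real.log A := by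
        field_simp
        ring
      rw [h3]
      have h4 : A ^ 2 = Real.exp (2 * Real.log A) := by
        have : (2 : ℝ) * Real.log A = ((2 : ℕ) : ℝ) * Real.log A := by norm_num
        rw [this, ← Real.log_pow, Real.exp_log (by positivity)]
      rw [h4]
      apply Real.exp_le_exp.2
      have := Real.log_nonneg hA1
      linarith
  have hGd : DiffContOnCl ℂ G (Metric.ball 0 R) := by
    apply DifferentiableOn.diffContOnCl
    rw [closure_ball _ hR0.ne']
    intro s hs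
    have hs1 : ‖s‖ ≤ 1 / 2 := by
      have : ‖s‖ ≤ R := by simpa using hs
      linarith
    have h4 : DifferentiableAt ℂ (fun s : ℂ => 1 / (1 - s)) s :=
      (differentiableAt_const _).div ((differentiableAt_const _).sub differentiableAt_id) (hne s hs1)
    exact ((Q.differentiable _).comp s h4).differentiableWithinAt
  have hcauchy := Complex.norm_deriv_le_of_forall_mem_sphere_norm_le hR0 hGd hGbd
  have hder : deriv G 0 = (derivative Q).eval 1 := by
    have h1 : HasDerivAt (fun s : ℂ => 1 / (1 - s)) 1 0 := by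
      have h2 : HasDerivAt (fun s : ℂ => 1 - s) (-1) 0 := by
        exact (hasDerivAt_id (0 : ℂ)).const_sub 1
      have h3 := (hasDerivAt_const (0 : ℂ) (1 : ℂ)).div h2 (by norm_num)
      refine h3.congr_deriv ?_
      norm_num
    have h4 : HasDerivAt (fun z : ℂ => Q.eval z) ((derivative Q).eval (1 / (1 - 0))) (1 / (1 - 0)) :=
      Q.hasDerivAt _
    have h5 := HasDerivAt.comp (0 : ℂ) h4 h1
    have h6 : HasDerivAt G ((derivative Q).eval (1 / (1 - 0)) * 1) 0 := h5
    rw [h6.deriv]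
    norm_num
  rw [hder] at hcauchy
  refine hcauchy.trans ?_
  rw [div_le_iff₀ hR0]
  have h1 : (n : ℝ) ^ κ * R = (1 / 4) ^ κ := by
    rw [hR, ← Real.mul_rpow (by positivity) (by positivity)]
    congr 1
    field_simp
  have h2 : (1 / 16 : ℝ) ≤ (1 / 4) ^ κ := by
    have h3 : (1 / 4 : ℝ) ^ (2 : ℝ) ≤ (1 / 4) ^ κ :=
      Real.rpow_le_rpow_of_exponent_ge (by norm_num) (by norm_num) hκ2
    have h4 : (1 / 4 : ℝ) ^ (2 : ℝ) = 1 / 16 := by
      rw [show (2 : ℝ) = ((2 : ℕ) : ℝ) by norm_num, Real.rpow_natCast]; norm_num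
    linarith
  have h3 : 6400 * (1 + τ) ^ 2 * (n : ℝ) ^ κ * K * R = (K * A ^ 2) * (16 * ((n : ℝ) ^ κ * R)) := by
    rw [hA]; ring
  rw [h3, h1]
  have h4 : 0 ≤ K * A ^ 2 := by positivity
  nlinarith

end Pool.Agent.Helper27.MB
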