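import Pool.Agent.Helper27.MB.Norms
import Pool.Agent.Helper27.MB.Corner

/-!
The bound of Eskenazis and Ivanisvili for real `r > 1`, and the numerical range of the Laplacian
in `L^p` through `L^(p/k)`.
-/

open Finset Polynomial

namespace Pool.Agent.Helper27.MB

open Pool.Agent.Helper54.MB
open Pool.Agent.Helper40.MB (chi norm_chi chi_mem_D)

variable {n : ℕ}

/-- The exponent. -/
noncomputable def kap (r : ℝ) : ℝ := 1 + 2 / Real.pi * Real.arctan (T r)

/-- The constant. -/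
noncomputable def Cei (r : ℝ) : ℝ := 6400 * (1 + T r) ^ 2

lemma Cei_pos (r : ℝ) : 6400 ≤ Cei r := by
  unfold Cei
  have := T_nonneg r
  nlinarith

lemma kap_ge_one (r : ℝ) : 1 ≤ kap r := by
  unfold kap
  have h := Real.arctan_nonneg.2 (T_nonneg r)
  have := Real.pi_pos
  have : 0 ≤ 2 / Real.pi * Real.arctan (T r) := by positivity
  linarith

lemma kap_le_two (r : ℝ) : kap r ≤ 2 := by
  unfold kap
  have h := Real.arctan_lt_pi_div_two (T r)
  have hpi := Real.pi_pos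
  have : 2 / Real.pi * Real.arctan (T r) ≤ 1 := by
    rw [div_mul_eq_mul_div, div_le_one hpi]
    linarith
  linarith

lemma lap_Fc (c : Finset (Fin n) → ℂ) : lap (Fc c) = Fc fun A => (A.card : ℂ) * c A := by
  funext x
  exact lap_sum c x

/-- The polynomial `ρ ↦ ⟨v, T_ρ f⟩`. -/
noncomputable def pol (r : ℝ) (v : (Fin n → Bool) → ℂ) (c : Finset (Fin n) → ℂ) : ℂ[X] :=
  ∑ A, C (c A * ∑ x, ph r (v x) * ch A x) * X ^ A.card

lemma pr_Fc (r : ℝ) (v : (Fin n → Bool) → ℂ) (c : Finset (Fin n) → ℂ) :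
    pr r v (Fc c) = ∑ A, c A * ∑ x, ph r (v x) * ch A x := by
  unfold pr Fc
  simp only [mul_sum]
  rw [sum_comm]
  refine sum_congr rfl fun A _ => sum_congr rfl fun x _ => by ring

lemma pol_eval (r : ℝ) (v : (Fin n → Bool) → ℂ) (c : Finset (Fin n) → ℂ) (ρ : ℂ) :
    (pol r v c).eval ρ = pr r v (Fc fun A => ρ ^ A.card * c A) := by
  rw [pr_Fc]
  unfold pol
  rw [eval_finset_sum]
  refine sum_congr rfl fun A _ => ?_
  rw [eval_mul, eval_C, eval_pow, eval_X]
  ring

lemma pol_deriv (r : ℝ) (v : (Fin n → Bool) → ℂ) (c : Finset (Fin n) → ℂ) :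
    (derivative (pol r v c)).eval 1 = pr r v (lap (Fc c)) := by
  rw [lap_Fc, pr_Fc]
  unfold pol
  rw [derivative_sum, eval_finset_sum]
  refine sum_congr rfl fun A _ => ?_
  rw [derivative_C_mul_X_pow, eval_mul, eval_C, eval_pow, eval_X, one_pow]
  ring

lemma pol_degree (r : ℝ) (v : (Fin n → Bool) → ℂ) (c : Finset (Fin n) → ℂ) {d : ℕ}
    (hc : ∀ A, d < A.card → c A = 0) : (pol r v c).natDegree ≤ d := by
  unfold pol
  apply natDegree_sum_le_of_forall_le
  intro A _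
  by_cases hA : d < A.card
  · rw [hc A hA, zero_mul, C_0, zero_mul, natDegree_zero]
    exact Nat.zero_le _
  · exact (natDegree_C_mul_X_pow_le _ _).trans (not_lt.1 hA)

/-- From the pairing with `v = Δ f` to the norm of `Δ f`. -/
lemma nr_lap_of_pr {r K : ℝ} (hr : 1 < r) (hK : 0 ≤ K) (c : Finset (Fin n) → ℂ)
    (h : ‖pr r (lap (Fc c)) (lap (Fc c))‖ ≤
      K * (nr r (lap (Fc c)) ^ (r - 1) * nr r (Fc c))) :
    nr r (lap (Fc c)) ≤ K * nr r (Fc c) := by
  set v := lap (Fc c)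
  rcases eq_or_lt_of_le (nr_nonneg r v) with h0 | h0
  · rw [← h0]
    exact mul_nonneg hK (nr_nonneg _ _)
  rw [pr_self (by linarith : r ≠ 0), Complex.norm_real, Real.norm_of_nonneg (S_nonneg r v),
    ← nr_rpow (by linarith) v, rpow_split h0 r] at h
  have h2 : 0 < nr r v ^ (r - 1) := Real.rpow_pos_of_pos h0 _
  have h3 : nr r v ^ (r - 1) * nr r v ≤ nr r v ^ (r - 1) * (K * nr r (Fc c)) := by linarith
  exact le_of_mul_le_mul_left h3 h2

/-- The bound of Eskenazis and Ivanisvili. -/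
theorem ei {r : ℝ} (hr : 1 < r) {d : ℕ} (hd : 1 ≤ d) (c : Finset (Fin n) → ℂ)
    (hc : ∀ A, d < A.card → c A = 0) :
    nr r (lap (Fc c)) ≤ Cei r * (d : ℝ) ^ kap r * nr r (Fc c) := by
  have hC := Cei_pos r
  have hdk : 0 ≤ (d : ℝ) ^ kap r := Real.rpow_nonneg (Nat.cast_nonneg _) _
  apply nr_lap_of_pr hr (by positivity)
  set v := lap (Fc c) with hv
  have h1 := corner_markov (T_nonneg r) (pol r v c) hd (pol_degree r v c hc)
    (K := nr r v ^ (r - 1) * nr r (Fc c)) (by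
      intro w hw
      rw [pol_eval]
      refine (norm_pr_le hr _ _).trans ?_
      exact mul_le_mul_of_nonneg_left (nr_noise_le hr hw c)
        (Real.rpow_nonneg (nr_nonneg _ _) _))
  rw [pol_deriv, ← hv] at h1
  exact h1

/-- Coefficients of an element of `D n k`. -/
lemma exists_coeff {k : ℕ} {u : (Fin n → Bool) → ℂ} (hu : u ∈ D n k) :
    ∃ c : Finset (Fin n) → ℂ, (∀ A, k < A.card → c A = 0) ∧ u = Fc c := by
  unfold D at hu
  rw [Submodule.mem_span_range_iff_exists_fun] at hu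
  obtain ⟨c, hc⟩ := hu
  refine ⟨fun S => if h : S.card ≤ k then c ⟨S, h⟩ else 0, ?_, ?_⟩
  · intro A hA
    simp only
    rw [dif_neg (not_le.2 hA)]
  · funext x
    rw [← hc]
    unfold Fc
    simp only [Finset.sum_apply, Pi.smul_apply, smul_eq_mul]
    have h1 : ∑ S : {S : Finset (Fin n) // S.card ≤ k}, c S * ch S.1 x =
        ∑ S : {S : Finset (Fin n) // S.card ≤ k},
          (if h : S.1.card ≤ k then c ⟨S.1, h⟩ else 0) * ch S.1 x := by
      refine sum_congr rfl fun S _ => ?_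
      rw [dif_pos S.2]
    rw [h1, sum_filter_subtype k (fun S => (if h : S.card ≤ k then c ⟨S, h⟩ else 0) * ch S x)]
    apply sum_subset (subset_univ _)
    intro S _ hS
    have : ¬ S.card ≤ k := fun h => hS (by simp [h])
    rw [dif_neg this, zero_mul]

lemma Fc_mem {d : ℕ} (c : Finset (Fin n) → ℂ) (hc : ∀ A, d < A.card → c A = 0) : Fc c ∈ D n d :=
  sum_mem_D c hc

/-- The real part of the numerical range in `L^r`. -/
lemma re_range {r : ℝ} (hr : 1 < r) {m : ℕ} (hm : 1 ≤ m) {g : (Fin n → Bool) → ℂ}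
    (hg : g ∈ D n m) : (pr r g (lap g)).re ≤ Cei r * (m : ℝ) ^ kap r * S r g := by
  obtain ⟨c, hc, rfl⟩ := exists_coeff hg
  have h1 := ei hr hm c hc
  have h2 := norm_pr_le hr (Fc c) (lap (Fc c))
  have h3 : nr r (Fc c) ^ (r - 1) * nr r (lap (Fc c)) ≤
      nr r (Fc c) ^ (r - 1) * (Cei r * (m : ℝ) ^ kap r * nr r (Fc c)) :=
    mul_le_mul_of_nonneg_left h1 (Real.rpow_nonneg (nr_nonneg _ _) _)
  refine (Complex.re_le_norm _).trans (h2.trans (h3.trans (le_of_eq ?_)))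
  rcases eq_or_lt_of_le (nr_nonneg r (Fc c)) with h0 | h0
  · have : S r (Fc c) = 0 := by
      rw [← nr_rpow (by linarith : 0 < r), ← h0, Real.zero_rpow (by linarith)]
    rw [this, ← h0]
    ring
  · rw [← nr_rpow (by linarith : 0 < r) (Fc c), rpow_split h0 r]
    ring

lemma S_psi {p : ℝ} {k : ℕ} (hk : 1 ≤ k) (u : (Fin n → Bool) → ℂ) :
    S (p / k) (fun x => psi k (u x)) = S p u := by
  unfold S
  refine sum_congr rfl fun x _ => ?_
  rw [norm_psi k hk, pow_rpow (by omega) (norm_nonneg _)]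

lemma S_chi {p : ℝ} {k : ℕ} (hk : 2 ≤ k) (u : (Fin n → Bool) → ℂ) :
    S (p / k) (fun x => chi k (u x)) = S p u := by
  unfold S
  refine sum_congr rfl fun x _ => ?_
  rw [norm_chi k hk, pow_rpow (by omega) (norm_nonneg _)]

lemma one_lt_div {p : ℝ} {k : ℕ} (hk : 1 ≤ k) (hp : (k : ℝ) + 1 ≤ p) : 1 < p / k := by
  have hk0 : (0 : ℝ) < k := by exact_mod_cast hk
  rw [lt_div_iff₀ hk0]
  linarith

/-- The numerical range in `L^p`, `k` odd. -/
lemma odd_range {p : ℝ} {k d : ℕ} (hk : Odd k) (hp : (k : ℝ) + 1 ≤ p) (hd : 1 ≤ d)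
    {u : (Fin n → Bool) → ℂ} (hu : u ∈ D n d) :
    ‖pr p u (lap u)‖ ≤
      (C0 p k * (Cei (p / k) * ((k * d : ℕ) : ℝ) ^ kap (p / k))) * S p u := by
  have hk1 : 1 ≤ k := hk.pos
  have hC := C0_ge p k
  have h1 : ‖pr p u (lap u)‖ ≤ C0 p k * (pr (p / k) (fun x => psi k (u x))
      (lap fun x => psi k (u x))).re := by
    rw [pr_lap, pr_lap, norm_mul]
    have h2 : ((1 / 4 : ℂ) * ∑ i, ∑ x, Z (p / k) (psi k (u x)) (psi k (u (flp i x)))).re =
        1 / 4 * ∑ i, ∑ x, (Z (p / k) (psi k (u x)) (psi k (u (flp i x)))).re := by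
      have : (1 / 4 : ℂ) = ((1 / 4 : ℝ) : ℂ) := by push_cast; ring
      rw [this, Complex.re_ofReal_mul, Complex.re_sum]
      simp only [Complex.re_sum]
    rw [h2]
    have h3 : ‖(1 / 4 : ℂ)‖ = 1 / 4 := by norm_num
    rw [h3]
    have h4 : ‖∑ i, ∑ x, Z p (u x) (u (flp i x))‖ ≤
        C0 p k * ∑ i, ∑ x, (Z (p / k) (psi k (u x)) (psi k (u (flp i x)))).re := by
      refine (norm_sum_le _ _).trans ?_
      rw [mul_sum]
      refine sum_le_sum fun i _ => (norm_sum_le _ _).trans ?_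
      rw [mul_sum]
      exact sum_le_sum fun x _ => norm_Z_le_psi hk1 hp _ _
    linarith
  have h5 := re_range (one_lt_div hk1 hp) (m := k * d) (by nlinarith) (psi_mem_D hk hu)
  rw [S_psi hk1] at h5
  refine h1.trans ?_
  calc C0 p k * (pr (p / k) (fun x => psi k (u x)) (lap fun x => psi k (u x))).re
      ≤ C0 p k * (Cei (p / k) * ((k * d : ℕ) : ℝ) ^ kap (p / k) * S p u) :=
        mul_le_mul_of_nonneg_left h5 (by linarith)
    _ = _ := by ring

/-- The imaginary part of the numerical range in `L^p`, `k` even. -/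
lemma even_range {p : ℝ} {k d : ℕ} (hk : Even k) (hk2 : 2 ≤ k) (hp : (k : ℝ) + 1 ≤ p) (hd : 1 ≤ d)
    {u : (Fin n → Bool) → ℂ} (hu : u ∈ D n d) :
    |(pr p u (lap u)).im| ≤
      (2 * C0 p k * p * (Cei (p / k) * ((k * d : ℕ) : ℝ) ^ kap (p / k))) * S p u := by
  have hC := C0_ge p k
  have hk2R : (2 : ℝ) ≤ k := by exact_mod_cast hk2
  have hp0 : 0 < p := by linarith
  have h1 : |(pr p u (lap u)).im| ≤ 2 * C0 p k * p * (pr (p / k) (fun x => chi k (u x))
      (lap fun x => chi k (u x))).re := by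
    have e4 : (1 / 4 : ℂ) = ((1 / 4 : ℝ) : ℂ) := by push_cast; ring
    rw [pr_lap, pr_lap, e4, Complex.im_ofReal_mul, Complex.re_ofReal_mul, abs_mul,
      abs_of_pos (by norm_num : (0 : ℝ) < 1 / 4)]
    have h4 : |(∑ i, ∑ x, Z p (u x) (u (flp i x))).im| ≤
        2 * C0 p k * p * (∑ i, ∑ x, Z (p / k) (chi k (u x)) (chi k (u (flp i x)))).re := by
      simp only [Complex.re_sum, Complex.im_sum]
      refine (abs_sum_le_sum_abs _ _).trans ?_
      rw [mul_sum]
      refine sum_le_sum fun i _ => (abs_sum_le_sum_abs _ _).trans ?_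
      rw [mul_sum]
      exact sum_le_sum fun x _ => abs_Z_im_le_chi hk2 hp _ _
    linarith
  have h5 := re_range (one_lt_div (by omega) hp) (m := k * d) (by nlinarith)
    (chi_mem_D hk hk2 hu)
  rw [S_chi hk2] at h5
  refine h1.trans ?_
  calc 2 * C0 p k * p * (pr (p / k) (fun x => chi k (u x)) (lap fun x => chi k (u x))).re
      ≤ 2 * C0 p k * p * (Cei (p / k) * ((k * d : ℕ) : ℝ) ^ kap (p / k) * S p u) :=
        mul_le_mul_of_nonneg_left h5 (by positivity)
    _ = _ := by ring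

end Pool.Agent.Helper27.MB
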