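import Mathlib

/-!
Elementary two-point inequalities for real powers.
-/

namespace Pool.Agent.Helper27.MB

lemma rpow_split {x : ℝ} (hx : 0 < x) (α : ℝ) : x ^ α = x ^ (α - 1) * x := by
  have h := Real.rpow_add hx (α - 1) 1
  rw [Real.rpow_one] at h
  rw [← h]
  congr 1
  ring

lemma rpow_sub_ge {x y α : ℝ} (hy : 0 < y) (hyx : y ≤ x) (hα : 1 ≤ α) :
    x ^ (α - 1) * (x - y) ≤ x ^ α - y ^ α := by
  have hx : 0 < x := hy.trans_le hyx
  rw [rpow_split hx α, rpow_split hy α]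
  have h : y ^ (α - 1) ≤ x ^ (α - 1) := Real.rpow_le_rpow hy.le hyx (by linarith)
  have := mul_le_mul_of_nonneg_right h hy.le
  linarith

lemma rpow_sub_le {x y β : ℝ} (hy : 0 < y) (hyx : y ≤ x) (_hβ : 0 ≤ β) :
    x ^ β - y ^ β ≤ max 1 β * (x ^ (β - 1) * (x - y)) := by
  have hx : 0 < x := hy.trans_le hyx
  have hb : 0 < x ^ (β - 1) := Real.rpow_pos_of_pos hx _
  have hxy : 0 ≤ x - y := sub_nonneg.2 hyx
  -- `y = x * l`
  set l : ℝ := y / x with hl
  have hl0 : 0 < l := div_pos hy hx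
  have hl1 : l ≤ 1 := (div_le_one hx).2 hyx
  have hyl : y = x * l := by rw [hl]; field_simp
  have h1 : y ^ β = x ^ β * l ^ β := by
    rw [hyl, Real.mul_rpow hx.le hl0.le]
  have h2 : 1 - max 1 β * (1 - l) ≤ l ^ β := by
    rcases le_total β 1 with h | h
    · rw [max_eq_left h]
      have : l ^ (1 : ℝ) ≤ l ^ β := Real.rpow_le_rpow_of_exponent_ge hl0 hl1 h
      rw [Real.rpow_one] at this
      linarith
    · rw [max_eq_right h]
      have h3 := one_add_mul_self_le_rpow_one_add (s := l - 1) (by linarith) h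
      have h4 : 1 + (l - 1) = l := by ring
      rw [h4] at h3
      linarith
  have h5 : x ^ β - y ^ β ≤ x ^ β * (max 1 β * (1 - l)) := by
    rw [h1]
    have := mul_le_mul_of_nonneg_left h2 (Real.rpow_nonneg hx.le β)
    linarith
  refine h5.trans (le_of_eq ?_)
  have h6 : x - y = x * (1 - l) := by rw [hyl]; ring
  rw [h6, rpow_split hx β]
  ring

/-- The main part of the energy of the `k`-th power. -/
lemma energy_ge {x y p : ℝ} {k : ℕ} (hy : 0 < y) (hyx : y ≤ x) (hk : 1 ≤ k) (hp : (k : ℝ) + 1 ≤ p) :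
    x ^ (p - 2) * (x - y) ^ 2 ≤ (x ^ (p - k) - y ^ (p - k)) * (x ^ k - y ^ k) := by
  have hx : 0 < x := hy.trans_le hyx
  have hxy : 0 ≤ x - y := sub_nonneg.2 hyx
  have h1 : x ^ (p - k - 1) * (x - y) ≤ x ^ (p - k) - y ^ (p - k) :=
    rpow_sub_ge hy hyx (by linarith)
  have hk1 : (1 : ℝ) ≤ (k : ℝ) := by exact_mod_cast hk
  have h2 : x ^ ((k : ℝ) - 1) * (x - y) ≤ x ^ k - y ^ k := by
    have := rpow_sub_ge hy hyx hk1
    rwa [Real.rpow_natCast, Real.rpow_natCast] at this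
  have h3 : x ^ (p - 2) = x ^ (p - k - 1) * x ^ ((k : ℝ) - 1) := by
    rw [← Real.rpow_add hx]
    congr 1
    ring
  have h4 : 0 ≤ x ^ (p - k - 1) * (x - y) := mul_nonneg (Real.rpow_nonneg hx.le _) hxy
  have h5 : 0 ≤ x ^ ((k : ℝ) - 1) * (x - y) := mul_nonneg (Real.rpow_nonneg hx.le _) hxy
  calc x ^ (p - 2) * (x - y) ^ 2 = (x ^ (p - k - 1) * (x - y)) * (x ^ ((k : ℝ) - 1) * (x - y)) := by
        rw [h3]; ring
    _ ≤ (x ^ (p - k) - y ^ (p - k)) * (x ^ k - y ^ k) := mul_le_mul h1 h2 h5 (h4.trans h1)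

/-- If `y ≤ x / 2` the main part dominates `x^p`. -/
lemma energy_ge_far {x y p : ℝ} {k : ℕ} (hy : 0 < y) (hyx : y ≤ x / 2) (hk : 1 ≤ k)
    (hp : (k : ℝ) + 1 ≤ p) :
    x ^ p ≤ 4 * ((x ^ (p - k) - y ^ (p - k)) * (x ^ k - y ^ k)) := by
  have hx : 0 < x := by linarith
  have h := energy_ge hy (by linarith : y ≤ x) hk hp
  have h1 : x ^ p = x ^ (p - 2) * x ^ 2 := by
    rw [← Real.rpow_natCast x 2, ← Real.rpow_add hx]
    congr 1
    push_cast
    ring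
  have h2 : x ^ 2 ≤ 4 * (x - y) ^ 2 := by nlinarith
  have h3 : 0 < x ^ (p - 2) := Real.rpow_pos_of_pos hx _
  rw [h1]
  nlinarith [mul_le_mul_of_nonneg_left h2 h3.le]

/-- If `y ≥ x/2`, `x^(p-2) ≤ 2^j x^(p-2-2j) (x y)^j`. -/
lemma near_aux {x y p : ℝ} (j : ℕ) (hy : 0 < y) (hyx : y ≤ x) (h : x / 2 ≤ y) :
    x ^ (p - 2) ≤ 2 ^ j * (x ^ (p - 2 - 2 * j) * (x * y) ^ j) := by
  have hx : 0 < x := hy.trans_le hyx
  have h1 : x ^ (p - 2) = x ^ (p - 2 - 2 * j) * (x * x) ^ j := by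
    have : (x * x) ^ j = x ^ ((2 * j : ℕ) : ℝ) := by
      rw [Real.rpow_natCast, pow_mul, pow_two]
    rw [this, ← Real.rpow_add hx]
    congr 1
    push_cast
    ring
  have h2 : (x * x) ^ j ≤ 2 ^ j * (x * y) ^ j := by
    rw [← mul_pow]
    apply pow_le_pow_left₀ (by positivity)
    nlinarith
  have h3 : 0 < x ^ (p - 2 - 2 * j) := Real.rpow_pos_of_pos hx _
  rw [h1]
  calc x ^ (p - 2 - 2 * j) * (x * x) ^ j ≤ x ^ (p - 2 - 2 * j) * (2 ^ j * (x * y) ^ j) :=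
        mul_le_mul_of_nonneg_left h2 h3.le
    _ = _ := by ring

/-- The real inequality behind the transference for odd `k`. -/
lemma odd_core {x y h p : ℝ} {k : ℕ} (hy : 0 < y) (hyx : y ≤ x) (hk : 1 ≤ k)
    (hp : (k : ℝ) + 1 ≤ p) (hh : 0 ≤ h) (hh2 : h ≤ 2 * (x * y)) :
    x ^ (p - 2) * ((x - y) ^ 2 + 2 * h) +
        ((x ^ (p - 1) - y ^ (p - 1)) ^ 2 + 2 * (x ^ (p - 2) * y ^ (p - 2)) * h) / x ^ (p - 2) ≤
      (2 * (p ^ 2 + 2 ^ (k + 1) + 20)) *
        ((x ^ (p - k) - y ^ (p - k)) * (x ^ k - y ^ k) +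
          (x ^ (p - 2 * k) + y ^ (p - 2 * k)) * (x * y) ^ (k - 1) * h) := by
  have hx : 0 < x := hy.trans_le hyx
  have hxy : 0 ≤ x - y := sub_nonneg.2 hyx
  have hk1 : (1 : ℝ) ≤ (k : ℝ) := by exact_mod_cast hk
  have hp2 : 2 ≤ p := by linarith
  set μ : ℝ := x ^ (p - 2) with hμ
  have hμ0 : 0 < μ := Real.rpow_pos_of_pos hx _
  set E0 : ℝ := (x ^ (p - k) - y ^ (p - k)) * (x ^ k - y ^ k) with hE0
  have e1 : μ * (x - y) ^ 2 ≤ E0 := energy_ge hy hyx hk hp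
  have hE0n : 0 ≤ E0 := le_trans (by positivity) e1
  set E1 : ℝ := (x ^ (p - 2 * k) + y ^ (p - 2 * k)) * (x * y) ^ (k - 1) * h with hE1
  have hE1n : 0 ≤ E1 := by
    have : 0 < x ^ (p - 2 * k) := Real.rpow_pos_of_pos hx _
    have : 0 < y ^ (p - 2 * k) := Real.rpow_pos_of_pos hy _
    positivity
  -- the second factor
  have e2 : (x ^ (p - 1) - y ^ (p - 1)) ≤ (p - 1) * (μ * (x - y)) := by
    have h1 := rpow_sub_le hy hyx (β := p - 1) (by linarith)
    rw [max_eq_right (by linarith : (1 : ℝ) ≤ p - 1)] at h1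
    have h2 : p - 1 - 1 = p - 2 := by ring
    rw [h2] at h1
    exact h1
  have e2' : 0 ≤ x ^ (p - 1) - y ^ (p - 1) :=
    sub_nonneg.2 (Real.rpow_le_rpow hy.le hyx (by linarith))
  have e3 : (x ^ (p - 1) - y ^ (p - 1)) ^ 2 / μ ≤ (p - 1) ^ 2 * E0 := by
    rw [div_le_iff₀ hμ0]
    calc (x ^ (p - 1) - y ^ (p - 1)) ^ 2 ≤ ((p - 1) * (μ * (x - y))) ^ 2 :=
          pow_le_pow_left₀ e2' e2 2
      _ = (p - 1) ^ 2 * (μ * (x - y) ^ 2) * μ := by ring
      _ ≤ (p - 1) ^ 2 * E0 * μ := by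
          apply mul_le_mul_of_nonneg_right _ hμ0.le
          exact mul_le_mul_of_nonneg_left e1 (sq_nonneg _)
  have e4 : 2 * (μ * y ^ (p - 2)) * h / μ ≤ 2 * μ * h := by
    rw [div_le_iff₀ hμ0]
    have h1 : y ^ (p - 2) ≤ μ := Real.rpow_le_rpow hy.le hyx (by linarith)
    have h2 : μ * y ^ (p - 2) * h ≤ μ * μ * h :=
      mul_le_mul_of_nonneg_right (mul_le_mul_of_nonneg_left h1 hμ0.le) hh
    nlinarith
  -- the `h` part
  have e5 : μ * h ≤ 2 ^ (k - 1) * E1 + 4 * E0 := by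
    rcases le_total y (x / 2) with hc | hc
    · have h1 := energy_ge_far hy hc hk hp
      have h2 : μ * h ≤ x ^ p := by
        have h3 : h ≤ x ^ 2 := by nlinarith
        have h4 : x ^ p = μ * x ^ 2 := by
          rw [hμ, ← Real.rpow_natCast x 2, ← Real.rpow_add hx]
          congr 1
          push_cast
          ring
        rw [h4]
        exact mul_le_mul_of_nonneg_left h3 hμ0.le
      have : 0 ≤ 2 ^ (k - 1) * E1 := by positivity
      linarith
    · have h1 := near_aux (p := p) (k - 1) hy hyx hc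
      have h2 : p - 2 - 2 * ((k - 1 : ℕ) : ℝ) = p - 2 * k := by
        rw [Nat.cast_sub hk]
        push_cast
        ring
      rw [h2] at h1
      have h3 : μ * h ≤ (2 ^ (k - 1) * (x ^ (p - 2 * k) * (x * y) ^ (k - 1))) * h :=
        mul_le_mul_of_nonneg_right h1 hh
      have h4 : x ^ (p - 2 * k) * (x * y) ^ (k - 1) * h ≤ E1 := by
        have : 0 ≤ y ^ (p - 2 * k) * (x * y) ^ (k - 1) * h := by
          have : 0 < y ^ (p - 2 * k) := Real.rpow_pos_of_pos hy _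
          positivity
        rw [hE1]
        nlinarith
      have h5 : (0 : ℝ) ≤ 2 ^ (k - 1) := by positivity
      nlinarith [mul_le_mul_of_nonneg_left h4 h5]
  have e6 : ((x ^ (p - 1) - y ^ (p - 1)) ^ 2 + 2 * (μ * y ^ (p - 2)) * h) / μ =
      (x ^ (p - 1) - y ^ (p - 1)) ^ 2 / μ + 2 * (μ * y ^ (p - 2)) * h / μ := add_div _ _ _
  rw [e6]
  have e7 : (2 : ℝ) ^ (k + 1) = 4 * 2 ^ (k - 1) := by
    obtain ⟨j, rfl⟩ : ∃ j, k = j + 1 := ⟨k - 1, by omega⟩
    rw [Nat.add_sub_cancel]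
    ring
  rw [e7]
  have e8 : 0 ≤ (2 : ℝ) ^ (k - 1) * E0 := by positivity
  have e9 : 0 ≤ p ^ 2 * E1 := by positivity
  have e10 : (p - 1) ^ 2 * E0 ≤ p ^ 2 * E0 := by
    apply mul_le_mul_of_nonneg_right _ hE0n
    nlinarith
  have e11 : 0 ≤ p ^ 2 * E0 := by positivity
  have e12 : 0 ≤ (2 : ℝ) ^ (k - 1) * E1 := by positivity
  nlinarith

/-- The real inequality behind the transference for even `k`. -/
lemma even_core {x y v p : ℝ} {k : ℕ} (hy : 0 < y) (hyx : y ≤ x) (hk : 2 ≤ k)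
    (hp : (k : ℝ) + 1 ≤ p) (hv0 : 0 ≤ v) (hv : v ≤ x * y) :
    (x ^ (p - 2) - y ^ (p - 2)) * v ≤
      (2 * (p ^ 2 + 2 ^ (k + 1) + 20)) * p *
        ((x ^ (p - k) - y ^ (p - k)) * (x ^ k - y ^ k) +
          (x ^ (p - 2 * k) + y ^ (p - 2 * k)) * (x * y) ^ (k - 2) * (2 * v ^ 2)) := by
  have hx : 0 < x := hy.trans_le hyx
  have hxy : 0 ≤ x - y := sub_nonneg.2 hyx
  have hk1 : (2 : ℝ) ≤ (k : ℝ) := by exact_mod_cast hk
  have hp2 : 3 ≤ p := by linarith
  set μ : ℝ := x ^ (p - 2) with hμ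
  have hμ0 : 0 < μ := Real.rpow_pos_of_pos hx _
  set E0 : ℝ := (x ^ (p - k) - y ^ (p - k)) * (x ^ k - y ^ k) with hE0
  have e1 : μ * (x - y) ^ 2 ≤ E0 := energy_ge hy hyx (by omega) hp
  have hE0n : 0 ≤ E0 := le_trans (by positivity) e1
  set E1 : ℝ := (x ^ (p - 2 * k) + y ^ (p - 2 * k)) * (x * y) ^ (k - 2) * (2 * v ^ 2) with hE1
  have hE1n : 0 ≤ E1 := by
    have : 0 < x ^ (p - 2 * k) := Real.rpow_pos_of_pos hx _
    have : 0 < y ^ (p - 2 * k) := Real.rpow_pos_of_pos hy _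
    positivity
  have hC : (40 : ℝ) ≤ 2 * (p ^ 2 + 2 ^ (k + 1) + 20) := by
    have : (0 : ℝ) ≤ 2 ^ (k + 1) := by positivity
    nlinarith
  set C : ℝ := 2 * (p ^ 2 + 2 ^ (k + 1) + 20) with hCdef
  have hD : 0 ≤ E0 + E1 := by linarith
  rcases le_total y (x / 2) with hc | hc
  · have h1 := energy_ge_far hy hc (by omega : 1 ≤ k) hp
    have h2 : (μ - y ^ (p - 2)) * v ≤ x ^ p := by
      have h4 : x ^ p = μ * x ^ 2 := by
        rw [hμ, ← Real.rpow_natCast x 2, ← Real.rpow_add hx]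
        congr 1
        push_cast
        ring
      have h5 : 0 < y ^ (p - 2) := Real.rpow_pos_of_pos hy _
      rw [h4]
      have h6 : (μ - y ^ (p - 2)) * v ≤ μ * v := mul_le_mul_of_nonneg_right (by linarith) hv0
      have h7 : v ≤ x ^ 2 := by nlinarith
      exact h6.trans (mul_le_mul_of_nonneg_left h7 hμ0.le)
    have h3 : 4 * E0 ≤ C * p * (E0 + E1) := by
      have : (4 : ℝ) ≤ C * p := by nlinarith
      nlinarith
    linarith
  · -- near case
    have h1 := rpow_sub_le hy hyx (β := p - 2) (by linarith)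
    rw [max_eq_right (by linarith : (1 : ℝ) ≤ p - 2)] at h1
    set ν : ℝ := x ^ (p - 2 - 1) with hν
    have hν0 : 0 < ν := Real.rpow_pos_of_pos hx _
    have hμν : μ = ν * x := rpow_split hx _
    -- `ν (x-y) v ≤ (1/2) (μ (x-y)^2 + (ν / x) v^2)`
    have h2 : ν * (x - y) * v ≤ (1 / 2) * (μ * (x - y) ^ 2 + ν / x * v ^ 2) := by
      rw [hμν]
      have h3 : ν * x * (x - y) ^ 2 + ν / x * v ^ 2 - 2 * (ν * (x - y) * v) =
          ν / x * (x * (x - y) - v) ^ 2 := by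
        field_simp
        ring
      have h4 : 0 ≤ ν / x * (x * (x - y) - v) ^ 2 := by positivity
      linarith
    have h3 : ν / x = x ^ (p - 4) := by
      rw [hν, div_eq_mul_inv, ← Real.rpow_neg_one, ← Real.rpow_add hx]
      congr 1
      ring
    have h4 : ν / x ≤ 2 ^ (k - 2) * (x ^ (p - 2 * k) * (x * y) ^ (k - 2)) := by
      have h5 := near_aux (p := p - 2) (k - 2) hy hyx hc
      have h6 : p - 2 - 2 - 2 * ((k - 2 : ℕ) : ℝ) = p - 2 * k := by
        rw [Nat.cast_sub hk]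
        push_cast
        ring
      rw [h6] at h5
      have h7 : p - 2 - 2 = p - 4 := by ring
      rw [h3, ← h7]
      exact h5
    have h5 : ν / x * v ^ 2 ≤ 2 ^ (k - 2) * E1 := by
      have h6 : ν / x * v ^ 2 ≤ (2 ^ (k - 2) * (x ^ (p - 2 * k) * (x * y) ^ (k - 2))) * v ^ 2 :=
        mul_le_mul_of_nonneg_right h4 (sq_nonneg _)
      have h7 : (x ^ (p - 2 * k) * (x * y) ^ (k - 2)) * v ^ 2 ≤ E1 := by
        have h8 : 0 ≤ (x ^ (p - 2 * k) * (x * y) ^ (k - 2)) * v ^ 2 := by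
          have : 0 < x ^ (p - 2 * k) := Real.rpow_pos_of_pos hx _
          positivity
        have h9 : 0 ≤ (y ^ (p - 2 * k) * (x * y) ^ (k - 2)) * v ^ 2 := by
          have : 0 < y ^ (p - 2 * k) := Real.rpow_pos_of_pos hy _
          positivity
        rw [hE1]
        nlinarith
      have h10 : (0 : ℝ) ≤ 2 ^ (k - 2) := by positivity
      nlinarith [mul_le_mul_of_nonneg_left h7 h10]
    have h6 : (μ - y ^ (p - 2)) * v ≤ (p - 2) * (ν * (x - y) * v) := by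
      have := mul_le_mul_of_nonneg_right h1 hv0
      linarith
    have h7 : (p - 2) * (ν * (x - y) * v) ≤ p * (E0 + 2 ^ (k - 2) * E1) := by
      have h8 : ν * (x - y) * v ≤ E0 + 2 ^ (k - 2) * E1 := by
        have : 0 ≤ (2 : ℝ) ^ (k - 2) * E1 := by positivity
        linarith
      have h9 : 0 ≤ E0 + 2 ^ (k - 2) * E1 := by positivity
      nlinarith
    have h8 : p * (E0 + 2 ^ (k - 2) * E1) ≤ C * p * (E0 + E1) := by
      have h9 : (2 : ℝ) ^ (k - 2) ≤ C := by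
        have : (2 : ℝ) ^ (k - 2) ≤ 2 ^ (k + 1) := pow_le_pow_right₀ (by norm_num) (by omega)
        have : (0 : ℝ) ≤ 2 ^ (k + 1) := by positivity
        rw [hCdef]
        nlinarith
      have h10 : E0 + 2 ^ (k - 2) * E1 ≤ C * (E0 + E1) := by nlinarith
      have : 0 ≤ p := by linarith
      nlinarith [mul_le_mul_of_nonneg_left h10 this]
    linarith

end Pool.Agent.Helper27.MB
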