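import Pool.Agent.Helper27.MB.Radius

/-!
The Markov-Bernstein inequality for all real `p ≥ 2` with the exponent
`1 + (2/π) arcsin(|p - 2k|/p)`.
-/

open Finset

namespace Pool.Agent.Helper27.MB

open Pool.Agent.Helper54.MB

lemma arctan_T {r : ℝ} (hr : 1 < r) : Real.arctan (T r) = Real.arcsin (|r - 2| / r) := by
  rw [Real.arctan_eq_arcsin]
  congr 1
  have h1 := T_sq hr
  have h2 : 0 < r - 1 := by linarith
  have h3 : (1 : ℝ) + T r ^ 2 = (r / (2 * Real.sqrt (r - 1))) ^ 2 := by
    rw [div_pow, mul_pow, Real.sq_sqrt h2.le]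
    field_simp
    nlinarith
  have h4 : 0 < Real.sqrt (r - 1) := Real.sqrt_pos.2 h2
  rw [h3, Real.sqrt_sq (by positivity)]
  unfold T
  have h5 : r ≠ 0 := by linarith
  field_simp

lemma kap_div {p : ℝ} {k : ℕ} (hk : 1 ≤ k) (hp : (k : ℝ) + 1 ≤ p) :
    kap (p / k) = 1 + 2 / Real.pi * Real.arcsin (|p - 2 * k| / p) := by
  unfold kap
  rw [arctan_T (one_lt_div hk hp)]
  have hk0 : (0 : ℝ) < k := by exact_mod_cast hk
  have h1 : |p / k - 2| / (p / k) = |p - 2 * k| / p := by
    have h2 : p / k - 2 = (p - 2 * k) / k := by field_simp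
    rw [h2, abs_div, abs_of_pos hk0]
    have : p ≠ 0 := by linarith
    field_simp
  rw [h1]

variable {n : ℕ}

lemma nr_zero_fun {p : ℝ} (hp : 0 < p) : nr p (fun _ : Fin n → Bool => (0 : ℂ)) = 0 := by
  unfold nr S
  simp only [norm_zero]
  rw [Real.zero_rpow hp.ne', sum_const_zero, Real.zero_rpow (by positivity)]

/-- The bound for one `k`. -/
theorem main_k (p : ℝ) (k : ℕ) (hk : 1 ≤ k) (hp : (k : ℝ) + 1 ≤ p) :
    ∃ C : ℝ, 0 < C ∧ ∀ (n d : ℕ) (c : Finset (Fin n) → ℂ), (∀ A, d < A.card → c A = 0) →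
      nr p (lap (Fc c)) ≤
        C * (d : ℝ) ^ (1 + 2 / Real.pi * Real.arcsin (|p - 2 * k| / p)) *
          (if Even k then Real.log (d + 1) else 1) * nr p (Fc c) := by
  have hk0 : (1 : ℝ) ≤ k := by exact_mod_cast hk
  have hp1 : 1 < p := by linarith
  have hC0 := C0_ge p k
  have hCei := Cei_pos (p / k)
  rw [← kap_div hk hp]
  set κ : ℝ := kap (p / k) with hκ
  have hκ1 : 1 ≤ κ := kap_ge_one _
  have hκ2 : κ ≤ 2 := kap_le_two _
  have hkκ : 1 ≤ (k : ℝ) ^ κ := Real.one_le_rpow hk0 (by linarith)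
  -- degree zero
  have hzero : ∀ (K : ℝ), 0 ≤ K → ∀ (n : ℕ) (c : Finset (Fin n) → ℂ),
      (∀ A, 0 < A.card → c A = 0) → nr p (lap (Fc c)) ≤ K * nr p (Fc c) := by
    intro K hK n c hc
    have h1 : lap (Fc c) = fun _ => 0 := by
      rw [lap_Fc]
      funext x
      unfold Fc
      apply sum_eq_zero
      intro A _
      show ((A.card : ℂ) * c A) * ch A x = 0
      rcases Nat.eq_zero_or_pos A.card with h | h
      · rw [h]; simp
      · rw [hc A h]; simp
    rw [h1, nr_zero_fun (by linarith)]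
    exact mul_nonneg hK (nr_nonneg _ _)
  by_cases hev : Even k
  · -- even case
    have hk2 : 2 ≤ k := by
      obtain ⟨j, hj⟩ := hev
      omega
    simp only [if_pos hev]
    set C1 : ℝ := 2 * C0 p k * p * (Cei (p / k) * (k : ℝ) ^ κ) with hC1
    have hC1b : 4 ≤ C1 := by
      have h1 : (6400 : ℝ) ≤ Cei (p / k) * (k : ℝ) ^ κ := by nlinarith
      have h2 : (40 : ℝ) ≤ 2 * C0 p k * p := by nlinarith
      have : (40 : ℝ) * 6400 ≤ C1 := mul_le_mul h2 h1 (by norm_num) (by linarith)
      linarith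
    set C3 : ℝ := Real.log (2 * C1 + 1) / Real.log 2 + 2 with hC3
    have hlog2 : 0 < Real.log 2 := Real.log_pos (by norm_num)
    have hC3b : 2 ≤ C3 := by
      have : 0 ≤ Real.log (2 * C1 + 1) / Real.log 2 :=
        div_nonneg (Real.log_nonneg (by linarith)) hlog2.le
      linarith
    refine ⟨400 * C1 * C3, by positivity, ?_⟩
    intro n d c hc
    rcases Nat.eq_zero_or_pos d with h0 | hd
    · subst h0
      apply hzero _ _ n c hc
      have : 0 ≤ Real.log (((0 : ℕ) : ℝ) + 1) := Real.log_nonneg (by simp)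
      have h2 : 0 ≤ (((0 : ℕ) : ℝ)) ^ κ := Real.rpow_nonneg (Nat.cast_nonneg _) _
      positivity
    · have hdR : (1 : ℝ) ≤ d := by exact_mod_cast hd
      have hdκ : (d : ℝ) ≤ (d : ℝ) ^ κ := by
        calc (d : ℝ) = (d : ℝ) ^ (1 : ℝ) := (Real.rpow_one _).symm
          _ ≤ _ := Real.rpow_le_rpow_of_exponent_le hdR hκ1
      have hdκ0 : 0 < (d : ℝ) ^ κ := by linarith
      have hMeq : 2 * C0 p k * p * (Cei (p / k) * ((k * d : ℕ) : ℝ) ^ kap (p / k)) =
          C1 * (d : ℝ) ^ κ := by
        rw [← hκ]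
        push_cast
        rw [Real.mul_rpow (by positivity) (by positivity), hC1]
        ring
      have hM4 : 4 * (d : ℝ) ≤ C1 * (d : ℝ) ^ κ := mul_le_mul hC1b hdκ (by linarith) (by linarith)
      have h1 := imaginary_norm hp1 hd hM4 (n := n) (fun u hu => by
        have := even_range hev hk2 hp hd hu
        rw [hMeq] at this
        exact this) c hc
      refine h1.trans ?_
      apply mul_le_mul_of_nonneg_right _ (nr_nonneg _ _)
      have hlogd : Real.log 2 ≤ Real.log (d + 1) := Real.log_le_log (by norm_num) (by linarith)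
      have h2 : Real.log (2 * (C1 * (d : ℝ) ^ κ) + 1) ≤ C3 * Real.log (d + 1) := by
        have h3 : 2 * (C1 * (d : ℝ) ^ κ) + 1 ≤ (2 * C1 + 1) * ((d : ℝ) + 1) ^ 2 := by
          have h4 : (d : ℝ) ^ κ ≤ ((d : ℝ) + 1) ^ 2 := by
            calc (d : ℝ) ^ κ ≤ (d : ℝ) ^ (2 : ℝ) := Real.rpow_le_rpow_of_exponent_le hdR hκ2
              _ = (d : ℝ) ^ 2 := by
                rw [show (2 : ℝ) = ((2 : ℕ) : ℝ) by norm_num, Real.rpow_natCast]
              _ ≤ _ := by nlinarith
          have h5 : (1 : ℝ) ≤ ((d : ℝ) + 1) ^ 2 := by nlinarith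
          nlinarith [mul_le_mul_of_nonneg_left h4 (by linarith : (0 : ℝ) ≤ C1)]
        have h4 := Real.log_le_log (by positivity) h3
        rw [Real.log_mul (by positivity) (by positivity), Real.log_pow] at h4
        have h5 : Real.log (2 * C1 + 1) ≤ Real.log (2 * C1 + 1) / Real.log 2 * Real.log (d + 1) := by
          rw [div_mul_eq_mul_div, le_div_iff₀ hlog2]
          exact mul_le_mul_of_nonneg_left hlogd (Real.log_nonneg (by linarith))
        rw [hC3, add_mul]
        push_cast at h4
        linarith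
      calc 400 * (C1 * (d : ℝ) ^ κ) * Real.log (2 * (C1 * (d : ℝ) ^ κ) + 1)
          ≤ 400 * (C1 * (d : ℝ) ^ κ) * (C3 * Real.log (d + 1)) :=
            mul_le_mul_of_nonneg_left h2 (by positivity)
        _ = _ := by ring
  · -- odd case
    have hodd : Odd k := Nat.not_even_iff_odd.1 hev
    simp only [if_neg hev]
    set C1 : ℝ := C0 p k * (Cei (p / k) * (k : ℝ) ^ κ) with hC1
    have hC1b : 1 ≤ C1 := by
      have h1 : (6400 : ℝ) ≤ Cei (p / k) * (k : ℝ) ^ κ := by nlinarith
      have : (20 : ℝ) * 6400 ≤ C1 := mul_le_mul hC0 h1 (by norm_num) (by linarith)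
      linarith
    refine ⟨4 * C1, by positivity, ?_⟩
    intro n d c hc
    rcases Nat.eq_zero_or_pos d with h0 | hd
    · subst h0
      apply hzero _ _ n c hc
      have h2 : 0 ≤ (((0 : ℕ) : ℝ)) ^ κ := Real.rpow_nonneg (Nat.cast_nonneg _) _
      positivity
    · have hdR : (1 : ℝ) ≤ d := by exact_mod_cast hd
      have hdκ : (d : ℝ) ≤ (d : ℝ) ^ κ := by
        calc (d : ℝ) = (d : ℝ) ^ (1 : ℝ) := (Real.rpow_one _).symm
          _ ≤ _ := Real.rpow_le_rpow_of_exponent_le hdR hκ1
      have hMeq : C0 p k * (Cei (p / k) * ((k * d : ℕ) : ℝ) ^ kap (p / k)) =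
          C1 * (d : ℝ) ^ κ := by
        rw [← hκ]
        push_cast
        rw [Real.mul_rpow (by positivity) (by positivity), hC1]
        ring
      have hM1 : (d : ℝ) ≤ C1 * (d : ℝ) ^ κ := by nlinarith
      have h1 := radius_norm hp1 (M := C1 * (d : ℝ) ^ κ) (n := n) (d := d) (by linarith) hM1
        (fun u hu => by
          have := odd_range hodd hp hd hu
          rw [hMeq] at this
          exact this) c hc
      refine h1.trans (le_of_eq ?_)
      ring

/-- The bound for `k = 1` and all real `p > 1` (Eskenazis and Ivanisvili). -/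
theorem main_one (p : ℝ) (hp : 1 < p) :
    ∃ C : ℝ, 0 < C ∧ ∀ (n d : ℕ) (c : Finset (Fin n) → ℂ), (∀ A, d < A.card → c A = 0) →
      nr p (lap (Fc c)) ≤
        C * (d : ℝ) ^ (1 + 2 / Real.pi * Real.arcsin (|p - 2| / p)) * nr p (Fc c) := by
  have hC := Cei_pos p
  refine ⟨Cei p, by linarith, ?_⟩
  intro n d c hc
  have h0 : kap p = 1 + 2 / Real.pi * Real.arcsin (|p - 2| / p) := by
    unfold kap
    rw [arctan_T hp]
  rw [← h0]
  rcases Nat.eq_zero_or_pos d with h | h
  · subst h
    have h1 : lap (Fc c) = fun _ => 0 := by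
      rw [lap_Fc]
      funext x
      unfold Fc
      apply sum_eq_zero
      intro A _
      show ((A.card : ℂ) * c A) * ch A x = 0
      rcases Nat.eq_zero_or_pos A.card with h | h
      · rw [h]; simp
      · rw [hc A h]; simp
    rw [h1, nr_zero_fun (by linarith)]
    have h2 : 0 ≤ (((0 : ℕ) : ℝ)) ^ kap p := Real.rpow_nonneg (Nat.cast_nonneg _) _
    have h3 := nr_nonneg p (Fc c)
    positivity
  · exact ei hp h c hc

/-- The bound with the exponent `1 + (2/π) arcsin(1/p)` for every real `p ≥ 2`. -/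
theorem main_all (p : ℝ) (hp : 2 ≤ p) :
    ∃ C : ℝ, 0 < C ∧ ∀ (n d : ℕ) (c : Finset (Fin n) → ℂ), (∀ A, d < A.card → c A = 0) →
      nr p (lap (Fc c)) ≤
        C * (d : ℝ) ^ (1 + 2 / Real.pi * Real.arcsin (1 / p)) * nr p (Fc c) := by
  have hpi := Real.pi_pos
  have hp0 : 0 < p := by linarith
  -- from an odd `k` with `|p - 2k| ≤ 1`
  have hodd : ∀ k : ℕ, Odd k → (k : ℝ) + 1 ≤ p → |p - 2 * k| ≤ 1 →
      ∃ C : ℝ, 0 < C ∧ ∀ (n d : ℕ) (c : Finset (Fin n) → ℂ), (∀ A, d < A.card → c A = 0) →
        nr p (lap (Fc c)) ≤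
          C * (d : ℝ) ^ (1 + 2 / Real.pi * Real.arcsin (1 / p)) * nr p (Fc c) := by
    intro k hk hkp habs
    obtain ⟨C, hC, h⟩ := main_k p k hk.pos hkp
    refine ⟨C, hC, ?_⟩
    intro n d c hc
    have h1 := h n d c hc
    rw [if_neg (Nat.not_even_iff_odd.2 hk), mul_one] at h1
    refine h1.trans ?_
    apply mul_le_mul_of_nonneg_right _ (nr_nonneg _ _)
    apply mul_le_mul_of_nonneg_left _ hC.le
    have h2 : Real.arcsin (|p - 2 * k| / p) ≤ Real.arcsin (1 / p) :=
      Real.monotone_arcsin (div_le_div_of_nonneg_right habs hp0.le)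
    have h3 : 1 + 2 / Real.pi * Real.arcsin (|p - 2 * k| / p) ≤
        1 + 2 / Real.pi * Real.arcsin (1 / p) := by
      have : 0 ≤ 2 / Real.pi := by positivity
      have := mul_le_mul_of_nonneg_left h2 this
      linarith
    rcases Nat.eq_zero_or_pos d with h0 | hd
    · have h4 : 0 ≤ Real.arcsin (|p - 2 * k| / p) :=
        Real.arcsin_nonneg.2 (by positivity)
      have h5 : 0 ≤ 2 / Real.pi * Real.arcsin (|p - 2 * k| / p) := by positivity
      rw [h0, Nat.cast_zero, Real.zero_rpow (by linarith), Real.zero_rpow (by linarith)]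
    · exact Real.rpow_le_rpow_of_exponent_le (by exact_mod_cast hd) h3
  set k : ℕ := ⌊(p + 1) / 2⌋₊ with hk
  have hk1 : (k : ℝ) ≤ (p + 1) / 2 := Nat.floor_le (by linarith)
  have hk2 : (p + 1) / 2 < k + 1 := Nat.lt_floor_add_one _
  have hkpos : 1 ≤ k := by
    by_contra hcon
    have : k = 0 := by omega
    rw [this] at hk2
    push_cast at hk2
    linarith
  have habs : |p - 2 * k| ≤ 1 := by
    rw [abs_le]
    constructor <;> linarith
  have hkp : (k : ℝ) + 1 ≤ p := by
    rcases Nat.lt_or_ge k 2 with h | h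
    · have : k = 1 := by omega
      rw [this]
      push_cast
      linarith
    · have : (2 : ℝ) ≤ k := by exact_mod_cast h
      linarith
  by_cases hev : Even k
  · have hk2' : 2 ≤ k := by
      obtain ⟨j, hj⟩ := hev
      omega
    rcases eq_or_lt_of_le habs with heq | hlt
    · -- use `k - 1`
      have hodd' : Odd (k - 1) := by
        obtain ⟨j, hj⟩ := hev
        exact ⟨j - 1, by omega⟩
      have hcast : ((k - 1 : ℕ) : ℝ) = k - 1 := by
        rw [Nat.cast_sub hkpos]
        push_cast
        ring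
      apply hodd (k - 1) hodd'
      · rw [hcast]
        linarith
      · rw [hcast]
        have h1 : p - 2 * k = -1 := by
          have h2 : p - 2 * k ≠ 1 := by
            intro h
            linarith
          rcases abs_eq (by norm_num : (0 : ℝ) ≤ 1) |>.1 heq with h | h
          · exact absurd h h2
          · exact h
        have h3 : p - 2 * (k - 1 : ℝ) = 1 := by linarith
        rw [h3, abs_one]
    · -- absorb the logarithm
      obtain ⟨C, hC, h⟩ := main_k p k hkpos hkp
      set a : ℝ := Real.arcsin (|p - 2 * k| / p) with ha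
      set b : ℝ := Real.arcsin (1 / p) with hb
      have hab : a < b := by
        apply Real.strictMonoOn_arcsin
        · constructor
          · have : 0 ≤ |p - 2 * k| / p := by positivity
            linarith
          · rw [div_le_one hp0]; linarith
        · constructor
          · have : 0 ≤ 1 / p := by positivity
            linarith
          · rw [div_le_one hp0]; linarith
        · exact div_lt_div_of_pos_right hlt hp0
      set η : ℝ := 2 / Real.pi * (b - a) with hη
      have hη0 : 0 < η := by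
        have : 0 < b - a := by linarith
        positivity
      refine ⟨C * ((2 : ℝ) ^ η / η), by positivity, ?_⟩
      intro n d c hc
      have h1 := h n d c hc
      rw [if_pos hev] at h1
      refine h1.trans ?_
      apply mul_le_mul_of_nonneg_right _ (nr_nonneg _ _)
      have ha0 : 0 ≤ a := Real.arcsin_nonneg.2 (by positivity)
      rcases Nat.eq_zero_or_pos d with h0 | hd
      · have h5 : 0 ≤ 2 / Real.pi * a := by positivity
        have h6 : 0 ≤ 2 / Real.pi * b := by
          have : 0 ≤ b := by linarith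
          positivity
        rw [h0, Nat.cast_zero, Real.zero_rpow (by linarith), Real.zero_rpow (by linarith)]
        simp
      · have hdR : (1 : ℝ) ≤ d := by exact_mod_cast hd
        have h2 : Real.log (d + 1) ≤ (2 : ℝ) ^ η / η * (d : ℝ) ^ η := by
          have h3 := Real.log_le_rpow_div (x := (d : ℝ) + 1) (by linarith) hη0
          refine h3.trans ?_
          rw [div_mul_eq_mul_div]
          apply div_le_div_of_nonneg_right _ hη0.le
          rw [← Real.mul_rpow (by norm_num) (by linarith)]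
          exact Real.rpow_le_rpow (by linarith) (by linarith) hη0.le
        have h3 : (d : ℝ) ^ (1 + 2 / Real.pi * b) =
            (d : ℝ) ^ (1 + 2 / Real.pi * a) * (d : ℝ) ^ η := by
          rw [← Real.rpow_add (by linarith)]
          congr 1
          rw [hη]
          ring
        rw [h3]
        have h4 : 0 ≤ C * (d : ℝ) ^ (1 + 2 / Real.pi * a) := by positivity
        calc C * (d : ℝ) ^ (1 + 2 / Real.pi * a) * Real.log (d + 1)
            ≤ C * (d : ℝ) ^ (1 + 2 / Real.pi * a) * ((2 : ℝ) ^ η / η * (d : ℝ) ^ η) :=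
              mul_le_mul_of_nonneg_left h2 h4
          _ = _ := by ring
  · exact hodd k (Nat.not_even_iff_odd.1 hev) hkp habs

end Pool.Agent.Helper27.MB
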