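import Pool.Agent.Helper27.MB.Transfer

/-!
`L^r` norms on the cube for real `r`, the pairing, and the contractivity of the noise operators in
a lens.
-/

open Finset

namespace Pool.Agent.Helper27.MB

open Pool.Agent.Helper54.MB

variable {n : ℕ}

/-- `∑ |u|^r`. -/
noncomputable def S (r : ℝ) (u : (Fin n → Bool) → ℂ) : ℝ := ∑ x, ‖u x‖ ^ r

/-- `(∑ |u|^r)^(1/r)`. -/
noncomputable def nr (r : ℝ) (u : (Fin n → Bool) → ℂ) : ℝ := S r u ^ (1 / r)

/-- The pairing of `|v|^(r-2) conj v` with `u`. -/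
noncomputable def pr (r : ℝ) (v u : (Fin n → Bool) → ℂ) : ℂ := ∑ x, ph r (v x) * u x

lemma S_nonneg (r : ℝ) (u : (Fin n → Bool) → ℂ) : 0 ≤ S r u :=
  sum_nonneg fun _ _ => Real.rpow_nonneg (norm_nonneg _) _

lemma nr_nonneg (r : ℝ) (u : (Fin n → Bool) → ℂ) : 0 ≤ nr r u :=
  Real.rpow_nonneg (S_nonneg r u) _

lemma nr_rpow {r : ℝ} (hr : 0 < r) (u : (Fin n → Bool) → ℂ) : nr r u ^ r = S r u := by
  unfold nr
  rw [← Real.rpow_mul (S_nonneg r u)]
  have : 1 / r * r = 1 := by field_simp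
  rw [this, Real.rpow_one]

lemma pr_self {r : ℝ} (hr : r ≠ 0) (u : (Fin n → Bool) → ℂ) : pr r u u = ((S r u : ℝ) : ℂ) := by
  unfold pr S
  rw [Complex.ofReal_sum]
  exact sum_congr rfl fun x _ => ph_mul_self hr (u x)

lemma norm_pr_le {r : ℝ} (hr : 1 < r) (v u : (Fin n → Bool) → ℂ) :
    ‖pr r v u‖ ≤ nr r v ^ (r - 1) * nr r u := by
  have hconj : (r / (r - 1)).HolderConjugate r :=
    (Real.HolderConjugate.conjExponent hr).symm
  have h1 : ‖pr r v u‖ ≤ ∑ x, ‖v x‖ ^ (r - 1) * ‖u x‖ := by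
    unfold pr
    refine (norm_sum_le _ _).trans (sum_le_sum fun x _ => ?_)
    rw [norm_mul, norm_ph (by linarith : r ≠ 1)]
  have h2 := Real.inner_le_Lp_mul_Lq_of_nonneg (univ : Finset (Fin n → Bool)) hconj
    (f := fun x => ‖v x‖ ^ (r - 1)) (g := fun x => ‖u x‖)
    (fun x _ => Real.rpow_nonneg (norm_nonneg _) _) (fun x _ => norm_nonneg _)
  refine h1.trans (h2.trans (le_of_eq ?_))
  have h3 : ∑ x, (‖v x‖ ^ (r - 1)) ^ (r / (r - 1)) = S r v := by
    unfold S
    refine sum_congr rfl fun x _ => ?_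
    rw [← Real.rpow_mul (norm_nonneg _)]
    congr 1
    have : r - 1 ≠ 0 := by linarith
    field_simp
  rw [h3]
  have h4 : S r v ^ (1 / (r / (r - 1))) = nr r v ^ (r - 1) := by
    unfold nr
    rw [← Real.rpow_mul (S_nonneg r v)]
    congr 1
    have : r - 1 ≠ 0 := by linarith
    field_simp
  rw [h4]
  rfl

/-- From the pairing to the norm. -/
lemma nr_le_of_pr {r c : ℝ} (hr : 1 < r) (u v : (Fin n → Bool) → ℂ)
    (h : c * S r u ≤ ‖pr r u v‖) : c * nr r u ≤ nr r v := by
  rcases eq_or_lt_of_le (nr_nonneg r u) with h0 | h0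
  · rw [← h0, mul_zero]; exact nr_nonneg r v
  have h1 := h.trans (norm_pr_le hr u v)
  rw [← nr_rpow (by linarith) u, rpow_split h0 r] at h1
  have h2 : 0 < nr r u ^ (r - 1) := Real.rpow_pos_of_pos h0 _
  have h3 : nr r u ^ (r - 1) * (c * nr r u) ≤ nr r u ^ (r - 1) * nr r v := by
    calc nr r u ^ (r - 1) * (c * nr r u) = c * (nr r u ^ (r - 1) * nr r u) := by ring
      _ ≤ _ := h1
  exact le_of_mul_le_mul_left h3 h2

lemma pr_diff (r : ℝ) (u : (Fin n → Bool) → ℂ) (i : Fin n) :
    ∑ x, ph r (u x) * (u x - u (flp i x)) = (1 / 2) * ∑ x, Z r (u x) (u (flp i x)) := by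
  have h2 : ∑ x, ph r (u (flp i x)) * (u x - u (flp i x)) =
      - ∑ x, ph r (u x) * (u x - u (flp i x)) := by
    have h3 := sum_flp i (fun x => ph r (u x) * (u (flp i x) - u x))
    simp only [flp_flp] at h3
    rw [h3, ← sum_neg_distrib]
    refine sum_congr rfl fun x _ => by ring
  have h4 : ∀ x, Z r (u x) (u (flp i x)) =
      ph r (u x) * (u x - u (flp i x)) - ph r (u (flp i x)) * (u x - u (flp i x)) := by
    intro x; unfold Z; ring
  simp only [h4]
  rw [sum_sub_distrib, h2]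
  ring

lemma pr_lap (r : ℝ) (u : (Fin n → Bool) → ℂ) :
    pr r u (lap u) = (1 / 4) * ∑ i, ∑ x, Z r (u x) (u (flp i x)) := by
  have h : pr r u (lap u) = ∑ i, (1 / 2) * ∑ x, ph r (u x) * (u x - u (flp i x)) := by
    unfold pr lap
    simp only [mul_sum]
    rw [sum_comm]
    refine sum_congr rfl fun i _ => sum_congr rfl fun x _ => ?_
    ring
  rw [h, mul_sum]
  refine sum_congr rfl fun i _ => ?_
  rw [pr_diff]
  ring

/-- One coordinate of the resolvent. -/
lemma nr_le_coord {r : ℝ} (hr : 1 < r) {w : ℂ} (hw : T r * |w.im| ≤ w.re)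
    (u : (Fin n → Bool) → ℂ) (i : Fin n) :
    nr r u ≤ nr r (fun x => u x + w / 2 * (u x - u (flp i x))) := by
  have key : 1 * S r u ≤ ‖pr r u (fun x => u x + w / 2 * (u x - u (flp i x)))‖ := by
    have h1 : pr r u (fun x => u x + w / 2 * (u x - u (flp i x))) =
        ((S r u : ℝ) : ℂ) + ((1 / 4 : ℝ) : ℂ) * (w * ∑ x, Z r (u x) (u (flp i x))) := by
      have e1 : pr r u (fun x => u x + w / 2 * (u x - u (flp i x))) =
          pr r u u + w / 2 * ∑ x, ph r (u x) * (u x - u (flp i x)) := by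
        unfold pr
        rw [mul_sum, ← sum_add_distrib]
        refine sum_congr rfl fun x _ => by ring
      rw [e1, pr_self (by linarith : r ≠ 0), pr_diff]
      push_cast
      ring
    set ζ : ℂ := ∑ x, Z r (u x) (u (flp i x)) with hζ
    have h2 : |ζ.im| ≤ T r * ζ.re := by
      rw [hζ, Complex.re_sum, Complex.im_sum]
      refine (abs_sum_le_sum_abs _ _).trans ?_
      rw [mul_sum]
      exact sum_le_sum fun x _ => sector hr _ _
    have h3 : 0 ≤ ζ.re := by
      rw [hζ, Complex.re_sum]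
      exact sum_nonneg fun x _ => Z_re_nonneg hr _ _
    have h4 : 0 ≤ (w * ζ).re := by
      rw [Complex.mul_re]
      have h5 : w.im * ζ.im ≤ |w.im| * (T r * ζ.re) := by
        calc w.im * ζ.im ≤ |w.im * ζ.im| := le_abs_self _
          _ = |w.im| * |ζ.im| := abs_mul _ _
          _ ≤ _ := mul_le_mul_of_nonneg_left h2 (abs_nonneg _)
      have h6 := mul_le_mul_of_nonneg_right hw h3
      nlinarith
    have h5 : (pr r u (fun x => u x + w / 2 * (u x - u (flp i x)))).re =
        S r u + 1 / 4 * (w * ζ).re := by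
      rw [h1, Complex.add_re, Complex.ofReal_re, Complex.re_ofReal_mul]
    have h6 := Complex.re_le_norm (pr r u (fun x => u x + w / 2 * (u x - u (flp i x))))
    rw [h5] at h6
    linarith
  have := nr_le_of_pr hr u _ key
  linarith

/-- The function with given Walsh coefficients. -/
noncomputable def Fc (c : Finset (Fin n) → ℂ) (x : Fin n → Bool) : ℂ := ∑ S, c S * ch S x

lemma nr_le_prod {r : ℝ} (hr : 1 < r) {w : ℂ} (hw : T r * |w.im| ≤ w.re)
    (J : Finset (Fin n)) : ∀ c : Finset (Fin n) → ℂ,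
    nr r (Fc c) ≤ nr r (Fc fun A => (1 + w) ^ (A ∩ J).card * c A) := by
  induction J using Finset.induction_on with
  | empty =>
    intro c
    simp
  | insert i J hi ih =>
    intro c
    have h1 := nr_le_coord hr hw (Fc c) i
    have h2 : (fun x => Fc c x + w / 2 * (Fc c x - Fc c (flp i x))) =
        Fc (fun A => (if i ∈ A then 1 + w else 1) * c A) := by
      funext x
      unfold Fc
      rw [← sum_sub_distrib, mul_sum, ← sum_add_distrib]
      refine sum_congr rfl fun A _ => ?_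
      rw [ch_flp]
      by_cases hA : i ∈ A
      · simp only [hA, if_true]
        ring
      · simp only [hA, if_false]
        ring
    rw [h2] at h1
    refine h1.trans ((ih _).trans (le_of_eq ?_))
    congr 1
    congr 1
    funext A
    by_cases hA : i ∈ A
    · have h3 : (A ∩ insert i J) = insert i (A ∩ J) := by
        rw [inter_insert_of_mem hA]
      have h4 : i ∉ A ∩ J := fun h => hi (mem_inter.1 h).2
      rw [h3, card_insert_of_notMem h4, if_pos hA, pow_succ]
      ring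
    · rw [inter_insert_of_notMem hA, if_neg hA, one_mul]

/-- The noise operator `T_ρ`, `ρ = 1/(1+w)`, is a contraction. -/
lemma nr_noise_le {r : ℝ} (hr : 1 < r) {w : ℂ} (hw : T r * |w.im| ≤ w.re)
    (c : Finset (Fin n) → ℂ) :
    nr r (Fc fun A => (1 / (1 + w)) ^ A.card * c A) ≤ nr r (Fc c) := by
  have h1 := nr_le_prod hr hw univ (fun A => (1 / (1 + w)) ^ A.card * c A)
  have h0 : 1 + w ≠ 0 := by
    intro h
    have h2 : (1 + w).re = 0 := by rw [h]; rfl
    rw [Complex.add_re, Complex.one_re] at h2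
    have h3 : 0 ≤ T r * |w.im| := mul_nonneg (T_nonneg r) (abs_nonneg _)
    linarith
  have h2 : (fun A : Finset (Fin n) => (1 + w) ^ (A ∩ univ).card * ((1 / (1 + w)) ^ A.card * c A)) =
      c := by
    funext A
    rw [inter_univ, ← mul_assoc, ← mul_pow, mul_one_div_cancel h0, one_pow, one_mul]
  rw [h2] at h1
  exact h1

end Pool.Agent.Helper27.MB
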