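import Pool.Agent.Helper27.MB.EI
import Pool.Agent.Helper40.MB.Main

/-!
From the numerical radius to the norm: the resolvent and Cauchy's estimate (odd `k`), the group
`exp(i t Δ)` and the kernel (even `k`).
-/

open Finset Polynomial Filter Topology

namespace Pool.Agent.Helper27.MB

open Pool.Agent.Helper54.MB
open Pool.Agent.Helper40.MB (rt dk norm_rt kernel_poly kernel_mass deriv_bound G natDegree_G
  eval_G_one norm_G_le G_damp exp_half_pi degree_bound numeric ex)

variable {n : ℕ}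

lemma pr_sub_mul (r : ℝ) (u v : (Fin n → Bool) → ℂ) (z : ℂ) :
    pr r u (fun x => u x - z * v x) = pr r u u - z * pr r u v := by
  unfold pr
  rw [mul_sum, ← sum_sub_distrib]
  refine sum_congr rfl fun x _ => by ring

/-- Numerical radius to norm. -/
theorem radius_norm {p M : ℝ} (hp : 1 < p) {d : ℕ} (hM : 0 < M) (hdM : (d : ℝ) ≤ M)
    (hrad : ∀ u ∈ D n d, ‖pr p u (lap u)‖ ≤ M * S p u)
    (c : Finset (Fin n) → ℂ) (hc : ∀ A, d < A.card → c A = 0) :
    nr p (lap (Fc c)) ≤ 4 * M * nr p (Fc c) := by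
  apply nr_lap_of_pr hp (by positivity)
  set v := lap (Fc c) with hv
  set R : ℝ := 1 / (2 * M) with hR
  have hR0 : 0 < R := by positivity
  have hsmall : ∀ z : ℂ, ‖z‖ ≤ R → ∀ j : ℕ, j ≤ d → 1 - z * (j : ℂ) ≠ 0 := by
    intro z hz j hj h
    have h1 : z * (j : ℂ) = 1 := (sub_eq_zero.1 h).symm
    have h2 : ‖z * (j : ℂ)‖ = 1 := by rw [h1, norm_one]
    rw [norm_mul, Complex.norm_natCast] at h2
    have h3 : (j : ℝ) ≤ M := le_trans (by exact_mod_cast hj) hdM
    have h4 : ‖z‖ * j ≤ R * M := mul_le_mul hz h3 (Nat.cast_nonneg _) hR0.le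
    have h5 : R * M = 1 / 2 := by rw [hR]; field_simp
    rw [h5, h2] at h4
    norm_num at h4
  set Rc : ℂ → Finset (Fin n) → ℂ := fun z A => if A.card ≤ d then c A / (1 - z * (A.card : ℂ)) else 0
    with hRc
  have hRc0 : ∀ z A, d < A.card → Rc z A = 0 := by
    intro z A hA
    rw [hRc]
    simp only
    rw [if_neg (not_le.2 hA)]
  have hres : ∀ z : ℂ, ‖z‖ ≤ R → nr p (Fc (Rc z)) ≤ 2 * nr p (Fc c) := by
    intro z hz
    have hmem : Fc (Rc z) ∈ D n d := Fc_mem _ (hRc0 z)
    have h1 : (fun x => Fc (Rc z) x - z * lap (Fc (Rc z)) x) = Fc c := by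
      funext x
      rw [lap_Fc]
      unfold Fc
      rw [mul_sum, ← sum_sub_distrib]
      refine sum_congr rfl fun A _ => ?_
      have h4 : Rc z A * (1 - z * (A.card : ℂ)) = c A := by
        by_cases hA : A.card ≤ d
        · have h2 := hsmall z hz A.card hA
          have h3 : Rc z A = c A / (1 - z * (A.card : ℂ)) := by
            rw [hRc]; simp only; rw [if_pos hA]
          rw [h3]
          exact div_mul_cancel₀ _ h2
        · rw [hRc0 z A (not_le.1 hA), hc A (not_le.1 hA), zero_mul]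
      linear_combination (ch A x) * h4
    have h2 := hrad _ hmem
    have h3 : 1 / 2 * S p (Fc (Rc z)) ≤ ‖pr p (Fc (Rc z)) (Fc c)‖ := by
      rw [← h1, pr_sub_mul, pr_self (by linarith : p ≠ 0)]
      have h4 : ‖((S p (Fc (Rc z)) : ℝ) : ℂ)‖ = S p (Fc (Rc z)) := by
        rw [Complex.norm_real, Real.norm_of_nonneg (S_nonneg _ _)]
      have h5 := norm_sub_norm_le ((S p (Fc (Rc z)) : ℝ) : ℂ)
        (z * pr p (Fc (Rc z)) (lap (Fc (Rc z))))
      rw [h4, norm_mul] at h5
      have h6 : ‖z‖ * ‖pr p (Fc (Rc z)) (lap (Fc (Rc z)))‖ ≤ R * (M * S p (Fc (Rc z))) :=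
        mul_le_mul hz h2 (norm_nonneg _) hR0.le
      have h7 : R * (M * S p (Fc (Rc z))) = 1 / 2 * S p (Fc (Rc z)) := by
        rw [hR]; field_simp
      rw [h7] at h6
      linarith
    have h4 := nr_le_of_pr hp _ _ h3
    linarith
  set H : ℂ → ℂ := fun z => pr p v (Fc (Rc z)) with hH
  have hHsum : ∀ z, H z = ∑ A, Rc z A * ∑ x, ph p (v x) * ch A x := fun z => pr_Fc p v _
  have hbd : ∀ z ∈ Metric.sphere (0 : ℂ) R,
      ‖H z‖ ≤ nr p v ^ (p - 1) * (2 * nr p (Fc c)) := by
    intro z hz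
    have hz' : ‖z‖ ≤ R := by
      have : ‖z‖ = R := by simpa using hz
      exact this.le
    refine (norm_pr_le hp _ _).trans ?_
    exact mul_le_mul_of_nonneg_left (hres z hz') (Real.rpow_nonneg (nr_nonneg _ _) _)
  have hterm : ∀ (A : Finset (Fin n)) (z : ℂ), ‖z‖ ≤ R →
      HasDerivAt (fun z => Rc z A) ((c A * (A.card : ℂ)) / (1 - z * (A.card : ℂ)) ^ 2) z := by
    intro A z hz
    by_cases hA : A.card ≤ d
    · have h2 := hsmall z hz A.card hA
      have h3 : (fun z => Rc z A) = fun z => c A / (1 - z * (A.card : ℂ)) := by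
        funext z
        rw [hRc]
        simp only
        rw [if_pos hA]
      rw [h3]
      have h4 : HasDerivAt (fun z : ℂ => 1 - z * (A.card : ℂ)) (-(1 * (A.card : ℂ))) z :=
        ((hasDerivAt_id z).mul_const _).const_sub 1
      have h5 := (hasDerivAt_const z (c A)).div h4 h2
      refine h5.congr_deriv ?_
      ring
    · have h3 : (fun z => Rc z A) = fun _ => 0 := by
        funext z
        exact hRc0 z A (not_le.1 hA)
      rw [h3, hc A (not_le.1 hA), zero_mul, zero_div]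
      exact hasDerivAt_const _ _
  have hHd : ∀ z : ℂ, ‖z‖ ≤ R → HasDerivAt H
      (∑ A, ((c A * (A.card : ℂ)) / (1 - z * (A.card : ℂ)) ^ 2) * ∑ x, ph p (v x) * ch A x) z := by
    intro z hz
    have h1 : H = fun z => ∑ A, Rc z A * ∑ x, ph p (v x) * ch A x := funext hHsum
    rw [h1]
    apply HasDerivAt.fun_sum
    intro A _
    exact (hterm A z hz).mul_const _
  have hdcl : DiffContOnCl ℂ H (Metric.ball 0 R) := by
    apply DifferentiableOn.diffContOnCl
    rw [closure_ball _ hR0.ne']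
    intro z hz
    have hz1 : ‖z‖ ≤ R := by simpa using hz
    exact (hHd z hz1).differentiableAt.differentiableWithinAt
  have hcauchy := Complex.norm_deriv_le_of_forall_mem_sphere_norm_le hR0 hdcl hbd
  have h0 := (hHd 0 (by rw [norm_zero]; exact hR0.le)).deriv
  rw [h0] at hcauchy
  have h1 : ∑ A, ((c A * (A.card : ℂ)) / (1 - 0 * (A.card : ℂ)) ^ 2) *
      ∑ x, ph p (v x) * ch A x = pr p v v := by
    have h2 : pr p v v = pr p v (Fc fun A => (A.card : ℂ) * c A) := by
      rw [← lap_Fc]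
    rw [h2, pr_Fc]
    refine sum_congr rfl fun A _ => ?_
    rw [zero_mul, sub_zero, one_pow, div_one]
    ring
  rw [h1] at hcauchy
  refine hcauchy.trans (le_of_eq ?_)
  rw [hR]
  field_simp
  ring

/-- The resolvent on the imaginary axis. -/
lemma res_im {p M : ℝ} (hp : 1 < p) {d : ℕ}
    (hrad : ∀ u ∈ D n d, |(pr p u (lap u)).im| ≤ M * S p u)
    (c : Finset (Fin n) → ℂ) (hc : ∀ A, d < A.card → c A = 0) (y : ℝ) :
    (1 - |y| * M) * nr p (Fc fun A => c A / (1 - (y : ℂ) * Complex.I * (A.card : ℂ))) ≤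
      nr p (Fc c) := by
  have hne : ∀ j : ℕ, (1 : ℂ) - (y : ℂ) * Complex.I * (j : ℂ) ≠ 0 := by
    intro j h
    have h1 : ((1 : ℂ) - (y : ℂ) * Complex.I * (j : ℂ)).re = 0 := by rw [h]; rfl
    simp at h1
  set e : Finset (Fin n) → ℂ := fun A => c A / (1 - (y : ℂ) * Complex.I * (A.card : ℂ)) with he
  have he0 : ∀ A, d < A.card → e A = 0 := by
    intro A hA
    rw [he]
    simp only
    rw [hc A hA, zero_div]
  have h1 : (fun x => Fc e x - ((y : ℂ) * Complex.I) * lap (Fc e) x) = Fc c := by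
    funext x
    rw [lap_Fc]
    unfold Fc
    rw [mul_sum, ← sum_sub_distrib]
    refine sum_congr rfl fun A _ => ?_
    have h4 : e A * (1 - (y : ℂ) * Complex.I * (A.card : ℂ)) = c A :=
      div_mul_cancel₀ _ (hne A.card)
    linear_combination (ch A x) * h4
  have h2 := hrad _ (Fc_mem e he0)
  apply nr_le_of_pr hp
  rw [← h1, pr_sub_mul, pr_self (by linarith : p ≠ 0)]
  refine le_trans ?_ (Complex.re_le_norm _)
  have h3 : (((y : ℂ) * Complex.I) * pr p (Fc e) (lap (Fc e))).re =
      - (y * (pr p (Fc e) (lap (Fc e))).im) := by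
    rw [mul_assoc, Complex.re_ofReal_mul, Complex.I_mul_re]
    ring
  rw [Complex.sub_re, Complex.ofReal_re, h3]
  have h4 : -(y * (pr p (Fc e) (lap (Fc e))).im) ≤ |y| * (M * S p (Fc e)) := by
    calc -(y * (pr p (Fc e) (lap (Fc e))).im) ≤ |y * (pr p (Fc e) (lap (Fc e))).im| := neg_le_abs _
      _ = |y| * |(pr p (Fc e) (lap (Fc e))).im| := abs_mul _ _
      _ ≤ _ := mul_le_mul_of_nonneg_left h2 (abs_nonneg y)
  have h5 : y * (pr p (Fc e) (lap (Fc e))).im ≤ |y| * (M * S p (Fc e)) := by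
    calc y * (pr p (Fc e) (lap (Fc e))).im ≤ |y * (pr p (Fc e) (lap (Fc e))).im| := le_abs_self _
      _ = |y| * |(pr p (Fc e) (lap (Fc e))).im| := abs_mul _ _
      _ ≤ _ := mul_le_mul_of_nonneg_left h2 (abs_nonneg y)
  linarith

lemma res_im_pow {p M : ℝ} (hp : 1 < p) {d : ℕ}
    (hrad : ∀ u ∈ D n d, |(pr p u (lap u)).im| ≤ M * S p u)
    (c : Finset (Fin n) → ℂ) (hc : ∀ A, d < A.card → c A = 0) {y : ℝ} (hy : 0 ≤ 1 - |y| * M)
    (m : ℕ) :
    (1 - |y| * M) ^ m *
      nr p (Fc fun A => c A / (1 - (y : ℂ) * Complex.I * (A.card : ℂ)) ^ m) ≤ nr p (Fc c) := by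
  induction m with
  | zero => simp
  | succ m ih =>
    have h1 := res_im hp hrad (fun A => c A / (1 - (y : ℂ) * Complex.I * (A.card : ℂ)) ^ m)
      (fun A hA => by rw [hc A hA, zero_div]) y
    have h2 : (fun A : Finset (Fin n) => c A / (1 - (y : ℂ) * Complex.I * (A.card : ℂ)) ^ m /
        (1 - (y : ℂ) * Complex.I * (A.card : ℂ))) =
        fun A => c A / (1 - (y : ℂ) * Complex.I * (A.card : ℂ)) ^ (m + 1) := by
      funext A
      rw [div_div, ← pow_succ]
    rw [h2] at h1
    have h3 := mul_le_mul_of_nonneg_left h1 (pow_nonneg hy m)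
    calc (1 - |y| * M) ^ (m + 1) *
        nr p (Fc fun A => c A / (1 - (y : ℂ) * Complex.I * (A.card : ℂ)) ^ (m + 1))
        = (1 - |y| * M) ^ m * ((1 - |y| * M) *
          nr p (Fc fun A => c A / (1 - (y : ℂ) * Complex.I * (A.card : ℂ)) ^ (m + 1))) := by
          rw [pow_succ]; ring
      _ ≤ _ := h3
      _ ≤ _ := ih

lemma nr_tendsto {p : ℝ} (hp : 1 < p) {b : ℕ → Finset (Fin n) → ℂ} {b' : Finset (Fin n) → ℂ}
    (h : ∀ A, Tendsto (fun m => b m A) atTop (𝓝 (b' A))) :
    Tendsto (fun m => nr p (Fc (b m))) atTop (𝓝 (nr p (Fc b'))) := by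
  unfold nr
  apply Tendsto.rpow_const
  · unfold S
    apply tendsto_finset_sum
    intro x _
    apply Tendsto.rpow_const
    · apply Tendsto.norm
      unfold Fc
      apply tendsto_finset_sum
      intro A _
      exact (h A).mul_const _
    · exact Or.inr (by linarith)
  · exact Or.inr (by positivity)

/-- Growth of the group `exp(i t Δ)`. -/
lemma group_growth {p M : ℝ} (hp : 1 < p) {d : ℕ} (hM : 0 ≤ M)
    (hrad : ∀ u ∈ D n d, |(pr p u (lap u)).im| ≤ M * S p u)
    (c : Finset (Fin n) → ℂ) (hc : ∀ A, d < A.card → c A = 0) (t : ℝ) :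
    nr p (Fc fun A => Complex.exp (t * Complex.I) ^ A.card * c A) ≤
      Real.exp (M * |t|) * nr p (Fc c) := by
  have h1 : Tendsto (fun m : ℕ => (1 - |t / m| * M) ^ m *
      nr p (Fc fun A => c A / (1 - ((t / m : ℝ) : ℂ) * Complex.I * (A.card : ℂ)) ^ m)) atTop
      (𝓝 (Real.exp (-(M * |t|)) *
        nr p (Fc fun A => Complex.exp (t * Complex.I) ^ A.card * c A))) := by
    apply Tendsto.mul
    · have h2 := Real.tendsto_one_add_div_pow_exp (-(M * |t|))
      refine h2.congr fun m => ?_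
      congr 1
      rw [abs_div, Nat.abs_cast]
      ring
    · apply nr_tendsto hp
      intro A
      have h2 := Complex.tendsto_one_add_div_pow_exp (-(t * Complex.I * (A.card : ℂ)))
      have h3 : Tendsto (fun m : ℕ => c A / (1 + -(t * Complex.I * (A.card : ℂ)) / (m : ℂ)) ^ m) atTop
          (𝓝 (c A / Complex.exp (-(t * Complex.I * (A.card : ℂ))))) :=
        tendsto_const_nhds.div h2 (Complex.exp_ne_zero _)
      have h4 : c A / Complex.exp (-(t * Complex.I * (A.card : ℂ))) =
          Complex.exp (t * Complex.I) ^ A.card * c A := by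
        rw [Complex.exp_neg, div_inv_eq_mul, ← Complex.exp_nat_mul, mul_comm (c A),
          mul_comm (A.card : ℂ)]
      rw [h4] at h3
      refine h3.congr fun m => ?_
      congr 2
      push_cast
      ring
  have h2 : ∀ᶠ m : ℕ in atTop, (1 - |t / m| * M) ^ m *
      nr p (Fc fun A => c A / (1 - ((t / m : ℝ) : ℂ) * Complex.I * (A.card : ℂ)) ^ m) ≤
        nr p (Fc c) := by
    obtain ⟨m0, hm0⟩ := exists_nat_ge (|t| * M)
    filter_upwards [eventually_ge_atTop (m0 + 1)] with m hm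
    apply res_im_pow hp hrad c hc
    have hm1 : (0 : ℝ) < m := by
      have : 0 < m := by omega
      exact_mod_cast this
    have hm2 : |t| * M ≤ m := by
      have : (m0 : ℝ) ≤ m := by
        have : m0 ≤ m := by omega
        exact_mod_cast this
      linarith
    rw [abs_div, Nat.abs_cast, div_mul_eq_mul_div, sub_nonneg, div_le_one hm1]
    exact hm2
  have h3 := le_of_tendsto h1 h2
  have h4 : Real.exp (M * |t|) * (Real.exp (-(M * |t|)) *
      nr p (Fc fun A => Complex.exp (t * Complex.I) ^ A.card * c A)) =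
      nr p (Fc fun A => Complex.exp (t * Complex.I) ^ A.card * c A) := by
    rw [← mul_assoc, ← Real.exp_add]
    simp
  rw [← h4]
  exact mul_le_mul_of_nonneg_left h3 (Real.exp_pos _).le

/-- The kernel of helper40 for one polynomial. -/
lemma kernel_scalar {B d : ℕ} (hB : 4 * d ≤ B) (hd : 1 ≤ d) (Q : ℂ[X]) (hQ : Q.natDegree ≤ d)
    {K : ℝ} (hK : ∀ t : ℝ, |t| ≤ Real.pi →
      ‖Q.eval (Complex.exp (t * Complex.I))‖ ≤ Real.exp (B * |t|) * K) :
    ‖(derivative Q).eval 1‖ ≤ 200 * B * Real.log (B + 1) * K := by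
  have hK0 : 0 ≤ K := by
    have h1 := hK 0 (by rw [abs_zero]; exact Real.pi_pos.le)
    rw [abs_zero, mul_zero, Real.exp_zero, one_mul] at h1
    exact (norm_nonneg _).trans h1
  have hQ1 : ‖Q.eval 1‖ ≤ K := by
    have h1 := hK 0 (by rw [abs_zero]; exact Real.pi_pos.le)
    rw [abs_zero, mul_zero, Real.exp_zero, one_mul, Complex.ofReal_zero, zero_mul,
      Complex.exp_zero] at h1
    exact h1
  set J := Nat.clog 2 B with hJ
  have hJ1 : B ≤ 2 ^ J := Nat.le_pow_clog (by norm_num) _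
  have hJ2 : 2 ^ J ≤ 2 * B := by
    have h1 := Nat.pow_pred_clog_lt_self (b := 2) (by norm_num) (show 1 < B by omega)
    have h2 : 1 ≤ J := by
      by_contra h3
      have : J = 0 := by omega
      rw [this, pow_zero] at hJ1
      omega
    have h3 : 2 ^ J = 2 ^ (J - 1) * 2 := by
      rw [← pow_succ]; congr 1; omega
    have h4 : 2 ^ (J - 1) < B := h1
    omega
  set N : ℕ := 10 * B * (J + 1) + 8 * B + d with hN
  have hN0 : 0 < N := by omega
  have hNR : (0 : ℝ) < N := by exact_mod_cast hN0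
  set g := G B J with hg
  have hgdeg : g.natDegree + d ≤ N :=
    Nat.add_le_add_right ((natDegree_G B J).trans (degree_bound _ _ hJ2)) d
  set P : ℂ[X] := g * Q with hP
  have hPdeg : P.natDegree ≤ N := by
    refine Polynomial.natDegree_mul_le.trans ?_
    omega
  have hcirc : ∀ w : ℂ, ‖w‖ = 1 → ‖P.eval w‖ ≤ 5 * K := by
    intro w hw
    set t := Complex.arg w with ht
    have hwt : w = Complex.exp (t * Complex.I) := by
      have := Complex.norm_mul_exp_arg_mul_I w
      rw [hw, Complex.ofReal_one, one_mul] at this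
      exact this.symm
    have htpi : |t| ≤ Real.pi := Complex.abs_arg_le_pi w
    have h1 : ‖Q.eval w‖ ≤ Real.exp (B * |t|) * K := by
      rw [hwt]
      exact hK t htpi
    have h4 : ‖g.eval w‖ * Real.exp (B * |t|) ≤ Real.exp (Real.pi / 2) := by
      rw [hwt]
      exact G_damp B J hJ1 htpi
    rw [hP, eval_mul, norm_mul]
    calc ‖g.eval w‖ * ‖Q.eval w‖ ≤ ‖g.eval w‖ * (Real.exp (B * |t|) * K) :=
          mul_le_mul_of_nonneg_left h1 (norm_nonneg _)
      _ = (‖g.eval w‖ * Real.exp (B * |t|)) * K := by ring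
      _ ≤ 5 * K := mul_le_mul_of_nonneg_right (h4.trans exp_half_pi) hK0
  have hker := kernel_poly hN0 P hPdeg
  have hleft : ‖(2 * (N : ℂ)) * (derivative P).eval 1‖ ≤ (2 * (N : ℝ) * N) * (5 * K) := by
    rw [← hker, ← kernel_mass hN0, sum_mul]
    refine (norm_sum_le _ _).trans (sum_le_sum fun r _ => ?_)
    rw [norm_mul, norm_mul, norm_zpow, norm_rt, one_zpow, one_mul, Complex.norm_real,
      Real.norm_of_nonneg (by positivity)]
    exact mul_le_mul_of_nonneg_left (hcirc _ (norm_rt N r)) (by positivity)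
  rw [norm_mul, norm_mul, Complex.norm_ofNat, Complex.norm_natCast] at hleft
  have h6 : ‖(derivative P).eval 1‖ ≤ N * (5 * K) := by
    have : 2 * (N : ℝ) * ‖(derivative P).eval 1‖ ≤ 2 * (N : ℝ) * (N * (5 * K)) := by linarith
    exact le_of_mul_le_mul_left this (by positivity)
  have h7 : (derivative P).eval 1 = (derivative g).eval 1 * Q.eval 1 + (derivative Q).eval 1 := by
    rw [hP, Polynomial.derivative_mul, Polynomial.eval_add, Polynomial.eval_mul, Polynomial.eval_mul,
      hg, eval_G_one, one_mul]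
  have h8 : ‖(derivative g).eval 1‖ ≤ N :=
    deriv_bound hN0 g (by omega) (fun w hw => norm_G_le hw B J)
  have h9 : ‖(derivative Q).eval 1‖ ≤ 6 * N * K := by
    have h10 : (derivative Q).eval 1 = (derivative P).eval 1 - (derivative g).eval 1 * Q.eval 1 := by
      rw [h7]; ring
    rw [h10]
    refine (norm_sub_le _ _).trans ?_
    rw [norm_mul]
    have h11 : ‖(derivative g).eval 1‖ * ‖Q.eval 1‖ ≤ N * K :=
      mul_le_mul h8 hQ1 (norm_nonneg _) hNR.le
    linarith
  have h12 := numeric hB hd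
  refine h9.trans ?_
  apply mul_le_mul_of_nonneg_right _ hK0
  rw [hN]
  exact h12

/-- Imaginary part of the numerical range to norm. -/
theorem imaginary_norm {p M : ℝ} (hp : 1 < p) {d : ℕ} (hd : 1 ≤ d) (hM : 4 * (d : ℝ) ≤ M)
    (hrad : ∀ u ∈ D n d, |(pr p u (lap u)).im| ≤ M * S p u)
    (c : Finset (Fin n) → ℂ) (hc : ∀ A, d < A.card → c A = 0) :
    nr p (lap (Fc c)) ≤ 400 * M * Real.log (2 * M + 1) * nr p (Fc c) := by
  have hdR : (1 : ℝ) ≤ d := by exact_mod_cast hd
  have hM0 : 0 ≤ M := by linarith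
  set B : ℕ := ⌈M⌉₊ with hBdef
  have hMB : M ≤ B := Nat.le_ceil M
  have hBM : (B : ℝ) ≤ M + 1 := (Nat.ceil_lt_add_one hM0).le
  have hB4 : 4 * d ≤ B := by
    have : ((4 * d : ℕ) : ℝ) ≤ B := by push_cast; linarith
    exact_mod_cast this
  have hlog : 0 ≤ Real.log (2 * M + 1) := Real.log_nonneg (by linarith)
  apply nr_lap_of_pr hp (by positivity)
  set v := lap (Fc c) with hv
  have h1 := kernel_scalar hB4 hd (pol p v c) (pol_degree p v c hc)
    (K := nr p v ^ (p - 1) * nr p (Fc c)) (by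
      intro t _
      rw [pol_eval]
      refine (norm_pr_le hp _ _).trans ?_
      have h2 := group_growth hp hM0 hrad c hc t
      have h3 : Real.exp (M * |t|) ≤ Real.exp (B * |t|) :=
        Real.exp_le_exp.2 (mul_le_mul_of_nonneg_right hMB (abs_nonneg t))
      have h4 : nr p (Fc fun A => Complex.exp (t * Complex.I) ^ A.card * c A) ≤
          Real.exp (B * |t|) * nr p (Fc c) :=
        h2.trans (mul_le_mul_of_nonneg_right h3 (nr_nonneg _ _))
      calc nr p v ^ (p - 1) * nr p (Fc fun A => Complex.exp (t * Complex.I) ^ A.card * c A)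
          ≤ nr p v ^ (p - 1) * (Real.exp (B * |t|) * nr p (Fc c)) :=
            mul_le_mul_of_nonneg_left h4 (Real.rpow_nonneg (nr_nonneg _ _) _)
        _ = _ := by ring)
  rw [pol_deriv, ← hv] at h1
  refine h1.trans ?_
  apply mul_le_mul_of_nonneg_right _
    (mul_nonneg (Real.rpow_nonneg (nr_nonneg _ _) _) (nr_nonneg _ _))
  have h5 : Real.log (B + 1) ≤ Real.log (2 * M + 1) := by
    apply Real.log_le_log (by positivity)
    linarith
  have h6 : 200 * (B : ℝ) ≤ 400 * M := by linarith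
  exact mul_le_mul h6 h5 (Real.log_nonneg (by linarith [hMB, hM0])) (by linarith)

end Pool.Agent.Helper27.MB
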