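import Pool.Agent.Helper27.MB.TwoPoint

/-!
Transference of the numerical range from `L^p` to `L^(p/k)`.
-/

namespace Pool.Agent.Helper27.MB

open Pool.Agent.Helper54.MB (psi norm_psi)
open Pool.Agent.Helper40.MB (chi norm_chi)

/-- The constant of the transference. -/
noncomputable def C0 (p : ℝ) (k : ℕ) : ℝ := p ^ 2 + 2 ^ (k + 1) + 20

lemma C0_ge (p : ℝ) (k : ℕ) : 20 ≤ C0 p k := by
  unfold C0
  have : (0 : ℝ) ≤ 2 ^ (k + 1) := by positivity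
  nlinarith [sq_nonneg p]

lemma norm_sub_sq (a b : ℂ) :
    ‖a - b‖ ^ 2 = ‖a‖ ^ 2 + ‖b‖ ^ 2 - 2 * (a * (starRingEnd ℂ) b).re := by
  have na : ‖a‖ ^ 2 = a.re * a.re + a.im * a.im := by
    rw [← Complex.normSq_apply, Complex.normSq_eq_norm_sq]
  have nb : ‖b‖ ^ 2 = b.re * b.re + b.im * b.im := by
    rw [← Complex.normSq_apply, Complex.normSq_eq_norm_sq]
  have nc : ‖a - b‖ ^ 2 = (a - b).re * (a - b).re + (a - b).im * (a - b).im := by
    rw [← Complex.normSq_apply, Complex.normSq_eq_norm_sq]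
  rw [na, nb, nc]
  simp only [Complex.mul_re, Complex.sub_re, Complex.sub_im, Complex.conj_re, Complex.conj_im]
  ring

lemma norm_ph_sub_sq {p : ℝ} {a b : ℂ} (ha : a ≠ 0) (hb : b ≠ 0) :
    ‖ph p a - ph p b‖ ^ 2 = (‖a‖ ^ (p - 1) - ‖b‖ ^ (p - 1)) ^ 2 +
      2 * (‖a‖ ^ (p - 2) * ‖b‖ ^ (p - 2)) * (‖a‖ * ‖b‖ - (a * (starRingEnd ℂ) b).re) := by
  have hx : 0 < ‖a‖ := norm_pos_iff.2 ha
  have hy : 0 < ‖b‖ := norm_pos_iff.2 hb
  have e3 := rpow_split hx (p - 1)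
  have e4 := rpow_split hy (p - 1)
  have e5 : p - 1 - 1 = p - 2 := by ring
  rw [e5] at e3 e4
  rw [e3, e4]
  have na : ‖a‖ ^ 2 = a.re * a.re + a.im * a.im := by
    rw [← Complex.normSq_apply, Complex.normSq_eq_norm_sq]
  have nb : ‖b‖ ^ 2 = b.re * b.re + b.im * b.im := by
    rw [← Complex.normSq_apply, Complex.normSq_eq_norm_sq]
  have nc : ‖ph p a - ph p b‖ ^ 2 = (ph p a - ph p b).re * (ph p a - ph p b).re +
      (ph p a - ph p b).im * (ph p a - ph p b).im := by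
    rw [← Complex.normSq_apply, Complex.normSq_eq_norm_sq]
  have e6 : (‖a‖ ^ (p - 2) * ‖a‖ - ‖b‖ ^ (p - 2) * ‖b‖) ^ 2 +
      2 * (‖a‖ ^ (p - 2) * ‖b‖ ^ (p - 2)) * (‖a‖ * ‖b‖ - (a * (starRingEnd ℂ) b).re) =
      (‖a‖ ^ (p - 2)) ^ 2 * ‖a‖ ^ 2 + (‖b‖ ^ (p - 2)) ^ 2 * ‖b‖ ^ 2 -
      2 * (‖a‖ ^ (p - 2) * ‖b‖ ^ (p - 2)) * (a * (starRingEnd ℂ) b).re := by ring
  rw [nc, e6, na, nb]
  unfold ph
  simp only [Complex.mul_re, Complex.sub_re, Complex.sub_im, Complex.mul_im, Complex.ofReal_re,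
    Complex.ofReal_im, Complex.conj_re, Complex.conj_im]
  ring

/-- Powers of `‖a‖^k`. -/
lemma pow_rpow {x p : ℝ} {k : ℕ} (hk : k ≠ 0) (hx : 0 ≤ x) : (x ^ k) ^ (p / k) = x ^ p := by
  rw [← Real.rpow_natCast, ← Real.rpow_mul hx]
  congr 1
  have : (k : ℝ) ≠ 0 := by exact_mod_cast hk
  field_simp

lemma pow_rpow' {x p : ℝ} {k : ℕ} (hk : k ≠ 0) (hx : 0 ≤ x) :
    (x ^ k) ^ (p / k - 2) = x ^ (p - 2 * k) := by
  rw [← Real.rpow_natCast, ← Real.rpow_mul hx]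
  congr 1
  have : (k : ℝ) ≠ 0 := by exact_mod_cast hk
  field_simp

lemma split_main {x y p : ℝ} (k : ℕ) (hx : 0 < x) (hy : 0 < y) :
    x ^ p + y ^ p - (x ^ (p - 2 * k) + y ^ (p - 2 * k)) * (x * y) ^ k =
      (x ^ (p - k) - y ^ (p - k)) * (x ^ k - y ^ k) := by
  have h1 : ∀ z : ℝ, 0 < z → z ^ (p - k) = z ^ (p - 2 * k) * z ^ k := by
    intro z hz
    rw [← Real.rpow_natCast z k, ← Real.rpow_add hz]
    congr 1
    ring
  have h2 : ∀ z : ℝ, 0 < z → z ^ p = z ^ (p - 2 * k) * z ^ k * z ^ k := by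
    intro z hz
    rw [← Real.rpow_natCast z k, ← Real.rpow_add hz, ← Real.rpow_add hz]
    congr 1
    ring
  rw [h1 x hx, h1 y hy, h2 x hx, h2 y hy, mul_pow]
  ring

/-- The energy of the `k`-th power, winding number one. -/
lemma Z_psi_re {p : ℝ} {k : ℕ} (hk : 1 ≤ k) {a b : ℂ} (ha : a ≠ 0) (hb : b ≠ 0) :
    (Z (p / k) (psi k a) (psi k b)).re =
      (‖a‖ ^ (p - k) - ‖b‖ ^ (p - k)) * (‖a‖ ^ k - ‖b‖ ^ k) +
        (‖a‖ ^ (p - 2 * k) + ‖b‖ ^ (p - 2 * k)) * (‖a‖ * ‖b‖) ^ (k - 1) *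
          (‖a‖ * ‖b‖ - (a * (starRingEnd ℂ) b).re) := by
  have hx : 0 < ‖a‖ := norm_pos_iff.2 ha
  have hy : 0 < ‖b‖ := norm_pos_iff.2 hb
  have hk0 : k ≠ 0 := by omega
  have hpa : psi k a ≠ 0 := by
    rw [← norm_pos_iff, norm_psi k hk]; positivity
  have hpb : psi k b ≠ 0 := by
    rw [← norm_pos_iff, norm_psi k hk]; positivity
  rw [Z_re hpa hpb, norm_psi k hk, norm_psi k hk, pow_rpow hk0 hx.le, pow_rpow hk0 hy.le,
    pow_rpow' hk0 hx.le, pow_rpow' hk0 hy.le]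
  have h1 : (psi k a * (starRingEnd ℂ) (psi k b)).re =
      (‖a‖ * ‖b‖) ^ (k - 1) * (a * (starRingEnd ℂ) b).re := by
    have : psi k a * (starRingEnd ℂ) (psi k b) =
        (((‖a‖ * ‖b‖) ^ (k - 1) : ℝ) : ℂ) * (a * (starRingEnd ℂ) b) := by
      unfold psi
      rw [map_mul, map_pow, Complex.conj_ofReal]
      push_cast
      ring
    rw [this, Complex.re_ofReal_mul]
  rw [h1]
  have h2 := split_main (p := p) k hx hy
  have h3 : (‖a‖ * ‖b‖) ^ k = (‖a‖ * ‖b‖) ^ (k - 1) * (‖a‖ * ‖b‖) := by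
    rw [← pow_succ]
    congr 1
    omega
  rw [h3] at h2
  linarith

/-- The energy of the `k`-th power, winding number two. -/
lemma Z_chi_re {p : ℝ} {k : ℕ} (hk : 2 ≤ k) {a b : ℂ} (ha : a ≠ 0) (hb : b ≠ 0) :
    (Z (p / k) (chi k a) (chi k b)).re =
      (‖a‖ ^ (p - k) - ‖b‖ ^ (p - k)) * (‖a‖ ^ k - ‖b‖ ^ k) +
        (‖a‖ ^ (p - 2 * k) + ‖b‖ ^ (p - 2 * k)) * (‖a‖ * ‖b‖) ^ (k - 2) *
          (2 * (a * (starRingEnd ℂ) b).im ^ 2) := by
  have hx : 0 < ‖a‖ := norm_pos_iff.2 ha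
  have hy : 0 < ‖b‖ := norm_pos_iff.2 hb
  have hk0 : k ≠ 0 := by omega
  have hpa : chi k a ≠ 0 := by
    rw [← norm_pos_iff, norm_chi k hk]; positivity
  have hpb : chi k b ≠ 0 := by
    rw [← norm_pos_iff, norm_chi k hk]; positivity
  rw [Z_re hpa hpb, norm_chi k hk, norm_chi k hk, pow_rpow hk0 hx.le, pow_rpow hk0 hy.le,
    pow_rpow' hk0 hx.le, pow_rpow' hk0 hy.le]
  have h1 : (chi k a * (starRingEnd ℂ) (chi k b)).re =
      (‖a‖ * ‖b‖) ^ (k - 2) * ((‖a‖ * ‖b‖) ^ 2 - 2 * (a * (starRingEnd ℂ) b).im ^ 2) := by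
    have : chi k a * (starRingEnd ℂ) (chi k b) =
        (((‖a‖ * ‖b‖) ^ (k - 2) : ℝ) : ℂ) * (a * (starRingEnd ℂ) b) ^ 2 := by
      unfold chi
      rw [map_mul, map_pow, map_pow, Complex.conj_ofReal]
      push_cast
      ring
    rw [this, Complex.re_ofReal_mul]
    have h2 := cross_sq a b
    have h3 : ((a * (starRingEnd ℂ) b) ^ 2).re =
        (a * (starRingEnd ℂ) b).re ^ 2 - (a * (starRingEnd ℂ) b).im ^ 2 := by
      rw [pow_two, Complex.mul_re]; ring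
    rw [h3, mul_pow ‖a‖ ‖b‖ 2, ← h2]
    ring
  rw [h1]
  have h2 := split_main (p := p) k hx hy
  have h3 : (‖a‖ * ‖b‖) ^ k = (‖a‖ * ‖b‖) ^ (k - 2) * (‖a‖ * ‖b‖) ^ 2 := by
    rw [← pow_add]
    congr 1
    omega
  rw [h3] at h2
  linarith

lemma norm_Z_le_psi {p : ℝ} {k : ℕ} (hk : 1 ≤ k) (hp : (k : ℝ) + 1 ≤ p) (a b : ℂ) :
    ‖Z p a b‖ ≤ C0 p k * (Z (p / k) (psi k a) (psi k b)).re := by
  have hk1 : (1 : ℝ) ≤ (k : ℝ) := by exact_mod_cast hk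
  have hk0 : k ≠ 0 := by omega
  have hp0 : p ≠ 0 := by linarith
  have hpk0 : p / k ≠ 0 := by
    have : (0 : ℝ) < p / k := by
      apply div_pos <;> linarith
    exact this.ne'
  have hC := C0_ge p k
  have zero_case : ∀ b : ℂ, ‖Z p 0 b‖ ≤ C0 p k * (Z (p / k) (psi k 0) (psi k b)).re := by
    intro b
    have h0 : psi k 0 = 0 := by unfold psi; simp
    rw [h0, Z_zero_left hp0, Z_zero_left hpk0, Complex.ofReal_re, norm_psi k hk,
      pow_rpow hk0 (norm_nonneg b), Complex.norm_real,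
      Real.norm_of_nonneg (Real.rpow_nonneg (norm_nonneg _) _)]
    have := Real.rpow_nonneg (norm_nonneg b) p
    nlinarith
  rcases eq_or_ne a 0 with ha | ha
  · rw [ha]; exact zero_case b
  rcases eq_or_ne b 0 with hb | hb
  · rw [hb, Z_symm p 0 a, Z_symm (p / k) (psi k 0) (psi k a)]
    exact zero_case a
  have main : ∀ a b : ℂ, a ≠ 0 → b ≠ 0 → ‖b‖ ≤ ‖a‖ →
      ‖Z p a b‖ ≤ C0 p k * (Z (p / k) (psi k a) (psi k b)).re := by
    intro a b ha hb hab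
    have hx : 0 < ‖a‖ := norm_pos_iff.2 ha
    have hy : 0 < ‖b‖ := norm_pos_iff.2 hb
    set h : ℝ := ‖a‖ * ‖b‖ - (a * (starRingEnd ℂ) b).re with hh
    have h1 := cross_sq a b
    have h2 : |(a * (starRingEnd ℂ) b).re| ≤ ‖a‖ * ‖b‖ := by
      apply abs_le_of_sq_le_sq _ (by positivity)
      rw [mul_pow]
      nlinarith [sq_nonneg (a * (starRingEnd ℂ) b).im]
    have h3 := abs_le.1 h2
    have hh0 : 0 ≤ h := by rw [hh]; linarith
    have hh2 : h ≤ 2 * (‖a‖ * ‖b‖) := by rw [hh]; linarith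
    have core := odd_core hy hab hk hp hh0 hh2
    rw [Z_psi_re hk ha hb, ← hh]
    have e1 : ‖a - b‖ ^ 2 = (‖a‖ - ‖b‖) ^ 2 + 2 * h := by
      rw [norm_sub_sq, hh]; ring
    have e2 := norm_ph_sub_sq (p := p) ha hb
    rw [← hh] at e2
    rw [← e1, ← e2] at core
    set μ : ℝ := ‖a‖ ^ (p - 2)
    have hμ0 : 0 < μ := Real.rpow_pos_of_pos hx _
    have e3 : ‖Z p a b‖ = ‖ph p a - ph p b‖ * ‖a - b‖ := norm_mul _ _
    have e4 : 2 * (‖ph p a - ph p b‖ * ‖a - b‖) ≤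
        μ * ‖a - b‖ ^ 2 + ‖ph p a - ph p b‖ ^ 2 / μ := by
      have e5 : μ * ‖a - b‖ ^ 2 + ‖ph p a - ph p b‖ ^ 2 / μ -
          2 * (‖ph p a - ph p b‖ * ‖a - b‖) = (μ * ‖a - b‖ - ‖ph p a - ph p b‖) ^ 2 / μ := by
        field_simp
        ring
      have e6 : 0 ≤ (μ * ‖a - b‖ - ‖ph p a - ph p b‖) ^ 2 / μ := by positivity
      linarith
    rw [e3]
    unfold C0
    linarith
  rcases le_total ‖b‖ ‖a‖ with h | h
  · exact main a b ha hb h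
  · have := main b a hb ha h
    rwa [Z_symm, Z_symm (p / k)] at this

lemma abs_Z_im_le_chi {p : ℝ} {k : ℕ} (hk : 2 ≤ k) (hp : (k : ℝ) + 1 ≤ p) (a b : ℂ) :
    |(Z p a b).im| ≤ 2 * C0 p k * p * (Z (p / k) (chi k a) (chi k b)).re := by
  have hk1 : (2 : ℝ) ≤ (k : ℝ) := by exact_mod_cast hk
  have hk0 : k ≠ 0 := by omega
  have hp0 : p ≠ 0 := by linarith
  have hp1 : 0 < p := by linarith
  have hpk0 : p / k ≠ 0 := by
    have : (0 : ℝ) < p / k := by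
      apply div_pos <;> linarith
    exact this.ne'
  have hC := C0_ge p k
  have zero_case : ∀ b : ℂ, |(Z p 0 b).im| ≤
      2 * C0 p k * p * (Z (p / k) (chi k 0) (chi k b)).re := by
    intro b
    have h0 : chi k 0 = 0 := by unfold chi; simp
    rw [h0, Z_zero_left hp0, Z_zero_left hpk0, Complex.ofReal_re, Complex.ofReal_im, abs_zero]
    have := Real.rpow_nonneg (norm_nonneg (chi k b)) (p / k)
    positivity
  rcases eq_or_ne a 0 with ha | ha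
  · rw [ha]; exact zero_case b
  rcases eq_or_ne b 0 with hb | hb
  · rw [hb, Z_symm p 0 a, Z_symm (p / k) (chi k 0) (chi k a)]
    exact zero_case a
  have main : ∀ a b : ℂ, a ≠ 0 → b ≠ 0 → ‖b‖ ≤ ‖a‖ →
      |(Z p a b).im| ≤ 2 * C0 p k * p * (Z (p / k) (chi k a) (chi k b)).re := by
    intro a b ha hb hab
    have hx : 0 < ‖a‖ := norm_pos_iff.2 ha
    have hy : 0 < ‖b‖ := norm_pos_iff.2 hb
    have h1 := cross_sq a b
    have h2 : |(a * (starRingEnd ℂ) b).im| ≤ ‖a‖ * ‖b‖ := by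
      apply abs_le_of_sq_le_sq _ (by positivity)
      rw [mul_pow]
      nlinarith [sq_nonneg (a * (starRingEnd ℂ) b).re]
    have core := even_core hy hab hk hp (abs_nonneg _) h2
    rw [sq_abs] at core
    rw [Z_chi_re hk ha hb, Z_im, abs_mul]
    have h3 : |‖a‖ ^ (p - 2) - ‖b‖ ^ (p - 2)| = ‖a‖ ^ (p - 2) - ‖b‖ ^ (p - 2) :=
      abs_of_nonneg (sub_nonneg.2 (Real.rpow_le_rpow hy.le hab (by linarith)))
    rw [h3]
    unfold C0
    exact core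
  rcases le_total ‖b‖ ‖a‖ with h | h
  · exact main a b ha hb h
  · have := main b a hb ha h
    rwa [Z_symm, Z_symm (p / k)] at this

end Pool.Agent.Helper27.MB
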