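import Pool.Agent.Helper27.MB.Ineq
import Pool.Agent.Helper54.MB.NumRange
import Pool.Agent.Helper40.MB.Im

/-!
Two-point inequalities for the numerical range in complex `L^r`.
-/

namespace Pool.Agent.Helper27.MB

open Pool.Agent.Helper54.MB (psi)
open Pool.Agent.Helper40.MB (chi)

lemma sinh_ratio {B r t : ℝ} (hB : 0 ≤ B) (hBr : B ≤ r) (ht : 0 ≤ t) :
    r * Real.sinh (B * t) ≤ B * Real.sinh (r * t) := by
  have hr : 0 ≤ r := hB.trans hBr
  set g : ℝ → ℝ := fun t => B * Real.sinh (r * t) - r * Real.sinh (B * t) with hg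
  have hder : ∀ t, HasDerivAt g (B * (Real.cosh (r * t) * r) - r * (Real.cosh (B * t) * B)) t := by
    intro t
    have h1 : HasDerivAt (fun t : ℝ => r * t) r t := by simpa using (hasDerivAt_id t).const_mul r
    have h2 : HasDerivAt (fun t : ℝ => B * t) B t := by simpa using (hasDerivAt_id t).const_mul B
    exact (h1.sinh.const_mul B).sub (h2.sinh.const_mul r)
  have hmono : MonotoneOn g (Set.Ici 0) := by
    apply monotoneOn_of_deriv_nonneg (convex_Ici 0)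
    · exact fun t _ => (hder t).continuousAt.continuousWithinAt
    · exact fun t _ => (hder t).differentiableAt.differentiableWithinAt
    · intro s hs
      rw [interior_Ici] at hs
      have hs0 : 0 < s := hs
      rw [(hder s).deriv]
      have h1 : Real.cosh (B * s) ≤ Real.cosh (r * s) := by
        rw [Real.cosh_le_cosh, abs_of_nonneg (mul_nonneg hB hs0.le),
          abs_of_nonneg (mul_nonneg hr hs0.le)]
        exact mul_le_mul_of_nonneg_right hBr hs0.le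
      have h2 : 0 ≤ B * r := mul_nonneg hB hr
      nlinarith
  have h := hmono (Set.mem_Ici.2 le_rfl) (Set.mem_Ici.2 ht) ht
  simp only [hg, mul_zero, Real.sinh_zero, sub_zero] at h
  linarith

/-- The slope of the sector. -/
noncomputable def T (r : ℝ) : ℝ := |r - 2| / (2 * Real.sqrt (r - 1))

lemma T_nonneg (r : ℝ) : 0 ≤ T r := by unfold T; positivity

lemma T_sq {r : ℝ} (hr : 1 < r) : 4 * (r - 1) * T r ^ 2 = (r - 2) ^ 2 := by
  unfold T
  rw [div_pow, mul_pow, Real.sq_sqrt (by linarith), sq_abs]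
  have : r - 1 ≠ 0 := by linarith
  field_simp
  ring

lemma rpow_diff {x y r : ℝ} (hy : 0 < y) (hyx : y ≤ x) (hr : 1 < r) :
    r * (x * y * |x ^ (r - 2) - y ^ (r - 2)|) ≤ |r - 2| * |x ^ r - y ^ r| := by
  have hx : 0 < x := hy.trans_le hyx
  set s : ℝ := (Real.log x + Real.log y) / 2 with hs
  set t : ℝ := (Real.log x - Real.log y) / 2 with ht
  have ht0 : 0 ≤ t := by
    have := Real.log_le_log hy hyx
    rw [ht]; linarith
  have hxe : x = Real.exp (s + t) := by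
    rw [hs, ht]
    have : (Real.log x + Real.log y) / 2 + (Real.log x - Real.log y) / 2 = Real.log x := by ring
    rw [this, Real.exp_log hx]
  have hye : y = Real.exp (s - t) := by
    rw [hs, ht]
    have : (Real.log x + Real.log y) / 2 - (Real.log x - Real.log y) / 2 = Real.log y := by ring
    rw [this, Real.exp_log hy]
  have hpow : ∀ q : ℝ, x ^ q - y ^ q = Real.exp (q * s) * (2 * Real.sinh (q * t)) := by
    intro q
    rw [hxe, hye, ← Real.exp_mul, ← Real.exp_mul, Real.sinh_eq]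
    have h1 : (s + t) * q = q * s + q * t := by ring
    have h2 : (s - t) * q = q * s + -(q * t) := by ring
    rw [h1, h2, Real.exp_add, Real.exp_add]
    ring
  have hxy : x * y = Real.exp (2 * s) := by
    rw [hxe, hye, ← Real.exp_add]
    congr 1
    ring
  rw [hpow r, hpow (r - 2), hxy, abs_mul, abs_mul (Real.exp (r * s)), Real.abs_exp, Real.abs_exp]
  have h3 : Real.exp (2 * s) * (Real.exp ((r - 2) * s) * |2 * Real.sinh ((r - 2) * t)|) =
      Real.exp (r * s) * |2 * Real.sinh ((r - 2) * t)| := by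
    rw [← mul_assoc, ← Real.exp_add]
    congr 2
    ring
  rw [h3]
  have h4 : |2 * Real.sinh ((r - 2) * t)| = 2 * Real.sinh (|r - 2| * t) := by
    rw [abs_mul, abs_two, Real.abs_sinh, abs_mul, abs_of_nonneg ht0]
  have h5 : |2 * Real.sinh (r * t)| = 2 * Real.sinh (r * t) := by
    rw [abs_mul, abs_two, Real.abs_sinh, abs_mul, abs_of_nonneg ht0, abs_of_nonneg (by linarith : 0 ≤ r)]
  rw [h4, h5]
  have h6 := sinh_ratio (abs_nonneg (r - 2)) (B := |r - 2|) (r := r) (t := t)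
    (by rw [abs_le]; constructor <;> linarith) ht0
  have h7 := Real.exp_pos (r * s)
  nlinarith [mul_le_mul_of_nonneg_left h6 h7.le]

/-- The sector inequality in real form. -/
lemma sector_core {x y u v r : ℝ} (hx : 0 < x) (hy : 0 < y) (hr : 1 < r)
    (huv : u ^ 2 + v ^ 2 = x ^ 2 * y ^ 2) :
    |(x ^ (r - 2) - y ^ (r - 2)) * v| ≤
      T r * (x ^ r + y ^ r - (x ^ (r - 2) + y ^ (r - 2)) * u) := by
  set α : ℝ := x ^ (r - 2) with hα
  set β : ℝ := y ^ (r - 2) with hβ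
  have hα0 : 0 < α := Real.rpow_pos_of_pos hx _
  have hβ0 : 0 < β := Real.rpow_pos_of_pos hy _
  have hxr : x ^ r = α * x ^ 2 := by
    rw [hα, ← Real.rpow_natCast x 2, ← Real.rpow_add hx]; congr 1; push_cast; ring
  have hyr : y ^ r = β * y ^ 2 := by
    rw [hβ, ← Real.rpow_natCast y 2, ← Real.rpow_add hy]; congr 1; push_cast; ring
  have hS : r * (x * y * |α - β|) ≤ |r - 2| * |x ^ r - y ^ r| := by
    rcases le_total y x with h | h
    · exact rpow_diff hy h hr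
    · have := rpow_diff hx h hr
      rw [abs_sub_comm (y ^ (r - 2)), abs_sub_comm (y ^ r), mul_comm y x] at this
      exact this
  have hS2 : r ^ 2 * (x ^ 2 * y ^ 2 * (α - β) ^ 2) ≤ (r - 2) ^ 2 * (x ^ r - y ^ r) ^ 2 := by
    have h0 : 0 ≤ r * (x * y * |α - β|) := by
      have : 0 ≤ r := by linarith
      positivity
    have h1 := pow_le_pow_left₀ h0 hS 2
    calc r ^ 2 * (x ^ 2 * y ^ 2 * (α - β) ^ 2) = (r * (x * y * |α - β|)) ^ 2 := by
          rw [mul_pow, mul_pow, mul_pow, sq_abs]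
      _ ≤ (|r - 2| * |x ^ r - y ^ r|) ^ 2 := h1
      _ = _ := by rw [mul_pow, sq_abs, sq_abs]
  have hT := T_sq hr
  have hT0 := T_nonneg r
  set τ : ℝ := T r
  have h1 : (τ ^ 2 * (α + β) ^ 2 + (α - β) ^ 2) * (x ^ 2 * y ^ 2) ≤
      τ ^ 2 * (x ^ r + y ^ r) ^ 2 := by
    have h2 : 0 ≤ 4 * (r - 1) *
        (τ ^ 2 * (x ^ r + y ^ r) ^ 2 - (τ ^ 2 * (α + β) ^ 2 + (α - β) ^ 2) * (x ^ 2 * y ^ 2)) := by
      have h3 : 4 * (r - 1) *
        (τ ^ 2 * (x ^ r + y ^ r) ^ 2 - (τ ^ 2 * (α + β) ^ 2 + (α - β) ^ 2) * (x ^ 2 * y ^ 2)) =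
          (r - 2) ^ 2 * (x ^ r - y ^ r) ^ 2 - r ^ 2 * (x ^ 2 * y ^ 2 * (α - β) ^ 2) := by
        rw [hxr, hyr]
        linear_combination ((α * x ^ 2 + β * y ^ 2) ^ 2 - (α + β) ^ 2 * (x ^ 2 * y ^ 2)) * hT
      rw [h3]
      linarith
    have h4 : 0 < 4 * (r - 1) := by linarith
    have h5 := (mul_nonneg_iff_of_pos_left h4).1 h2
    linarith
  have hP : 0 < x ^ r + y ^ r := by
    have := Real.rpow_pos_of_pos hx r
    have := Real.rpow_pos_of_pos hy r
    linarith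
  have h2 : (τ * (α + β) * u + |α - β| * |v|) ^ 2 ≤ (τ * (x ^ r + y ^ r)) ^ 2 := by
    have h3 : (τ * (α + β) * u + |α - β| * |v|) ^ 2 ≤
        (τ ^ 2 * (α + β) ^ 2 + (α - β) ^ 2) * (u ^ 2 + v ^ 2) := by
      have h4 : (τ ^ 2 * (α + β) ^ 2 + (α - β) ^ 2) * (u ^ 2 + v ^ 2) -
          (τ * (α + β) * u + |α - β| * |v|) ^ 2 =
          (τ * (α + β) * |v| - |α - β| * u) ^ 2 := by
        rw [← sq_abs (α - β), ← sq_abs v]
        ring
      have := sq_nonneg (τ * (α + β) * |v| - |α - β| * u)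
      linarith
    rw [huv] at h3
    calc _ ≤ _ := h3
      _ ≤ _ := h1
      _ = _ := by ring
  have h3 := abs_le_of_sq_le_sq h2 (by positivity)
  have h4 := (abs_le.1 h3).2
  rw [abs_mul]
  linarith

/-- `φ(a) = |a|^(r-2) conj a`. -/
noncomputable def ph (r : ℝ) (a : ℂ) : ℂ := ((‖a‖ ^ (r - 2) : ℝ) : ℂ) * (starRingEnd ℂ) a

/-- The edge term. -/
noncomputable def Z (r : ℝ) (a b : ℂ) : ℂ := (ph r a - ph r b) * (a - b)

lemma ph_zero (r : ℝ) : ph r 0 = 0 := by simp [ph]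

lemma ph_mul_self {r : ℝ} (hr : r ≠ 0) (a : ℂ) : ph r a * a = ((‖a‖ ^ r : ℝ) : ℂ) := by
  rcases eq_or_ne a 0 with h | h
  · rw [h, mul_zero, norm_zero, Real.zero_rpow hr]; simp
  · unfold ph
    have h1 : (starRingEnd ℂ) a * a = ((‖a‖ ^ 2 : ℝ) : ℂ) := by
      rw [mul_comm, Complex.mul_conj']; push_cast; rfl
    rw [mul_assoc, h1, ← Complex.ofReal_mul]
    congr 1
    have h2 : 0 < ‖a‖ := norm_pos_iff.2 h
    rw [← Real.rpow_natCast ‖a‖ 2, ← Real.rpow_add h2]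
    congr 1
    push_cast
    ring

lemma norm_ph {r : ℝ} (hr : r ≠ 1) (a : ℂ) : ‖ph r a‖ = ‖a‖ ^ (r - 1) := by
  rcases eq_or_ne a 0 with h | h
  · rw [h, ph_zero, norm_zero, Real.zero_rpow (sub_ne_zero.2 hr)]
  · unfold ph
    have h2 : 0 < ‖a‖ := norm_pos_iff.2 h
    have h3 : ‖(starRingEnd ℂ) a‖ = ‖a‖ := by rw [Complex.norm_conj]
    rw [norm_mul, h3, Complex.norm_real,
      Real.norm_of_nonneg (Real.rpow_nonneg (norm_nonneg _) _)]
    have := rpow_split h2 (r - 1)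
    have h4 : r - 1 - 1 = r - 2 := by ring
    rw [h4] at this
    exact this.symm

lemma Z_zero_left {r : ℝ} (hr : r ≠ 0) (b : ℂ) : Z r 0 b = ((‖b‖ ^ r : ℝ) : ℂ) := by
  unfold Z
  rw [ph_zero, zero_sub, zero_sub, neg_mul_neg, ph_mul_self hr]

lemma Z_zero_right {r : ℝ} (hr : r ≠ 0) (a : ℂ) : Z r a 0 = ((‖a‖ ^ r : ℝ) : ℂ) := by
  unfold Z
  rw [ph_zero, sub_zero, sub_zero, ph_mul_self hr]

lemma Z_symm (r : ℝ) (a b : ℂ) : Z r b a = Z r a b := by unfold Z; ring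

lemma Z_re {r : ℝ} {a b : ℂ} (ha : a ≠ 0) (hb : b ≠ 0) :
    (Z r a b).re = ‖a‖ ^ r + ‖b‖ ^ r -
      (‖a‖ ^ (r - 2) + ‖b‖ ^ (r - 2)) * (a * (starRingEnd ℂ) b).re := by
  have h2 : 0 < ‖a‖ := norm_pos_iff.2 ha
  have h3 : 0 < ‖b‖ := norm_pos_iff.2 hb
  have ea : ‖a‖ ^ r = ‖a‖ ^ (r - 2) * ‖a‖ ^ 2 := by
    rw [← Real.rpow_natCast ‖a‖ 2, ← Real.rpow_add h2]; congr 1; push_cast; ring
  have eb : ‖b‖ ^ r = ‖b‖ ^ (r - 2) * ‖b‖ ^ 2 := by
    rw [← Real.rpow_natCast ‖b‖ 2, ← Real.rpow_add h3]; congr 1; push_cast; ring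
  rw [ea, eb]
  have na : ‖a‖ ^ 2 = a.re * a.re + a.im * a.im := by
    rw [← Complex.normSq_apply, Complex.normSq_eq_norm_sq]
  have nb : ‖b‖ ^ 2 = b.re * b.re + b.im * b.im := by
    rw [← Complex.normSq_apply, Complex.normSq_eq_norm_sq]
  rw [na, nb]
  unfold Z ph
  simp only [Complex.mul_re, Complex.sub_re, Complex.sub_im, Complex.mul_im, Complex.ofReal_re,
    Complex.ofReal_im, Complex.conj_re, Complex.conj_im]
  ring

lemma Z_im {r : ℝ} {a b : ℂ} :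
    (Z r a b).im = (‖a‖ ^ (r - 2) - ‖b‖ ^ (r - 2)) * (a * (starRingEnd ℂ) b).im := by
  unfold Z ph
  simp only [Complex.mul_re, Complex.sub_re, Complex.sub_im, Complex.mul_im, Complex.ofReal_re,
    Complex.ofReal_im, Complex.conj_re, Complex.conj_im]
  ring

lemma cross_sq (a b : ℂ) :
    (a * (starRingEnd ℂ) b).re ^ 2 + (a * (starRingEnd ℂ) b).im ^ 2 = ‖a‖ ^ 2 * ‖b‖ ^ 2 := by
  have na : ‖a‖ ^ 2 = a.re * a.re + a.im * a.im := by
    rw [← Complex.normSq_apply, Complex.normSq_eq_norm_sq]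
  have nb : ‖b‖ ^ 2 = b.re * b.re + b.im * b.im := by
    rw [← Complex.normSq_apply, Complex.normSq_eq_norm_sq]
  rw [na, nb]
  simp only [Complex.mul_re, Complex.mul_im, Complex.conj_re, Complex.conj_im]
  ring

/-- The numerical range of the one-dimensional Laplacian in `L^r` lies in a sector. -/
lemma sector {r : ℝ} (hr : 1 < r) (a b : ℂ) : |(Z r a b).im| ≤ T r * (Z r a b).re := by
  have hr0 : r ≠ 0 := by linarith
  rcases eq_or_ne a 0 with ha | ha
  · rw [ha, Z_zero_left hr0, Complex.ofReal_im, Complex.ofReal_re, abs_zero]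
    exact mul_nonneg (T_nonneg r) (Real.rpow_nonneg (norm_nonneg _) _)
  rcases eq_or_ne b 0 with hb | hb
  · rw [hb, Z_zero_right hr0, Complex.ofReal_im, Complex.ofReal_re, abs_zero]
    exact mul_nonneg (T_nonneg r) (Real.rpow_nonneg (norm_nonneg _) _)
  rw [Z_re ha hb, Z_im]
  exact sector_core (norm_pos_iff.2 ha) (norm_pos_iff.2 hb) hr (cross_sq a b)

lemma Z_re_nonneg {r : ℝ} (hr : 1 < r) (a b : ℂ) : 0 ≤ (Z r a b).re := by
  have hr0 : r ≠ 0 := by linarith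
  rcases eq_or_ne a 0 with ha | ha
  · rw [ha, Z_zero_left hr0, Complex.ofReal_re]
    exact Real.rpow_nonneg (norm_nonneg _) _
  rcases eq_or_ne b 0 with hb | hb
  · rw [hb, Z_zero_right hr0, Complex.ofReal_re]
    exact Real.rpow_nonneg (norm_nonneg _) _
  rw [Z_re ha hb]
  have hx : 0 < ‖a‖ := norm_pos_iff.2 ha
  have hy : 0 < ‖b‖ := norm_pos_iff.2 hb
  have h1 := cross_sq a b
  have h2 : (a * (starRingEnd ℂ) b).re ≤ ‖a‖ * ‖b‖ := by
    have h3 : (a * (starRingEnd ℂ) b).re ^ 2 ≤ (‖a‖ * ‖b‖) ^ 2 := by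
      rw [mul_pow]
      nlinarith [sq_nonneg (a * (starRingEnd ℂ) b).im]
    exact (abs_le.1 (abs_le_of_sq_le_sq h3 (by positivity))).2
  have hα0 : 0 < ‖a‖ ^ (r - 2) := Real.rpow_pos_of_pos hx _
  have hβ0 : 0 < ‖b‖ ^ (r - 2) := Real.rpow_pos_of_pos hy _
  have h3 : (‖a‖ ^ (r - 2) + ‖b‖ ^ (r - 2)) * (a * (starRingEnd ℂ) b).re ≤
      (‖a‖ ^ (r - 2) + ‖b‖ ^ (r - 2)) * (‖a‖ * ‖b‖) :=
    mul_le_mul_of_nonneg_left h2 (by positivity)
  have h4 : ‖a‖ ^ r + ‖b‖ ^ r - (‖a‖ ^ (r - 2) + ‖b‖ ^ (r - 2)) * (‖a‖ * ‖b‖) =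
      (‖a‖ ^ (r - 1) - ‖b‖ ^ (r - 1)) * (‖a‖ - ‖b‖) := by
    have e1 := rpow_split hx r
    have e2 := rpow_split hy r
    have e3 := rpow_split hx (r - 1)
    have e4 := rpow_split hy (r - 1)
    have e5 : r - 1 - 1 = r - 2 := by ring
    rw [e5] at e3 e4
    rw [e1, e2, e3, e4]
    ring
  have h5 : 0 ≤ (‖a‖ ^ (r - 1) - ‖b‖ ^ (r - 1)) * (‖a‖ - ‖b‖) := by
    rcases le_total ‖b‖ ‖a‖ with h | h
    · exact mul_nonneg (sub_nonneg.2 (Real.rpow_le_rpow hy.le h (by linarith))) (sub_nonneg.2 h)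
    · exact mul_nonneg_of_nonpos_of_nonpos
        (sub_nonpos.2 (Real.rpow_le_rpow hx.le h (by linarith))) (sub_nonpos.2 h)
  linarith

end Pool.Agent.Helper27.MB
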